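import Mathlib
import Pool.Agent.H397R2.Reg

set_option autoImplicit false

namespace Pool.Agent.H284R3.RD

open Pool.Agent.Helper605.CP Pool.Agent.H397R2 Filter Topology

/-- Block lemma for `k`-regular sequences which are almost everywhere `D`-periodic. -/
lemma exists_block {R M : Type*} [Ring R] [IsNoetherianRing R] [AddCommGroup M]
    [Module R M] {c : ℕ → M} {D : ℕ} (hzd : ZD {n : ℕ | c n ≠ c (n + D)}) {k : ℕ} (hk : 2 ≤ k)
    (hfin : (Submodule.span R (kernel k c)).FG) :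
    ∃ m : ℕ, 1 ≤ m ∧ ∀ l j : ℕ, j + D < k ^ l → c (k ^ l * m + j) = c (k ^ l * m + j + D) := by
  classical
  by_contra hcon
  push Not at hcon
  set P : Set (ℕ → M) := {f | ∃ l j : ℕ, j + D < k ^ l ∧
    f = (fun n => c (k ^ l * n + j) - c (k ^ l * n + (j + D)))} with hP
  have hPsub : Submodule.span R P ≤ Submodule.span R (kernel k c) := by
    rw [Submodule.span_le]
    rintro f ⟨l, j, hj, rfl⟩
    have h1 : (fun n => c (k ^ l * n + j)) ∈ Submodule.span R (kernel k c) :=
      Submodule.subset_span ⟨l, j, by omega, rfl⟩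
    have h2 : (fun n => c (k ^ l * n + (j + D))) ∈ Submodule.span R (kernel k c) :=
      Submodule.subset_span ⟨l, j + D, hj, rfl⟩
    exact Submodule.sub_mem _ h1 h2
  have hPfg : (Submodule.span R P).FG := Submodule.FG.of_le hfin hPsub
  obtain ⟨s, hsP, hs⟩ := (Submodule.fg_span_iff_fg_span_finset_subset P).mp hPfg
  have hchoose : ∀ f : s, ∃ lj : ℕ × ℕ, lj.2 + D < k ^ lj.1 ∧
    f.1 = (fun n => c (k ^ lj.1 * n + lj.2) - c (k ^ lj.1 * n + (lj.2 + D))) := by
    rintro ⟨f, hf⟩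
    obtain ⟨l, j, hj, h1⟩ := hsP hf
    exact ⟨(l, j), hj, h1⟩
  choose lj hlj1 hlj2 using hchoose
  refine not_cover hzd (fun f : s => k ^ (lj f).1) (fun f : s => (lj f).2)
    (fun f => Nat.one_le_pow _ _ (by omega)) ?_
  intro m hm
  by_contra hall
  push Not at hall
  obtain ⟨l, j, hj, hne⟩ := hcon m hm
  apply hne
  rw [← sub_eq_zero]
  have hker : Submodule.span R (s : Set (ℕ → M)) ≤ LinearMap.ker (LinearMap.proj (R := R)
      (φ := fun _ : ℕ => M) m) := by
    rw [Submodule.span_le]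
    intro f hf
    have h1 := hall ⟨f, hf⟩
    have h2 : ¬ (c (k ^ (lj ⟨f, hf⟩).1 * m + (lj ⟨f, hf⟩).2) ≠
      c (k ^ (lj ⟨f, hf⟩).1 * m + (lj ⟨f, hf⟩).2 + D)) := h1
    push Not at h2
    have h3 := congrFun (hlj2 ⟨f, hf⟩) m
    show f m = 0
    rw [show f m = (⟨f, hf⟩ : s).1 m from rfl, h3, sub_eq_zero, ← Nat.add_assoc]
    exact h2
  have hmem : (fun n => c (k ^ l * n + j) - c (k ^ l * n + (j + D))) ∈
      Submodule.span R (s : Set (ℕ → M)) := by
    rw [← hs]
    exact Submodule.subset_span ⟨l, j, hj, rfl⟩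
  rw [Nat.add_assoc]
  exact hker hmem

variable {α : Type*}

/-- From long `D`-periodic runs to dyadic blocks. -/
lemma dyadic {c : ℕ → α} {D : ℕ} (hD : 1 ≤ D) (h2 : ∀ n, c (2 * n) = c n) {m0 : ℕ} (hm0 : 1 ≤ m0)
    (H : ∀ X : ℕ, ∃ x, X ≤ x ∧ ∀ y, x ≤ y → m0 * (y + D) < (m0 + 1) * x → c y = c (y + D)) :
    ∃ m, 1 ≤ m ∧ ∀ k r, r + D < 2 ^ k → c (r + 2 ^ k * m) = c (r + D + 2 ^ k * m) := by
  classical
  have hpow : ∀ j n, c (2 ^ j * n) = c n := by
    intro j n
    induction j with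
    | zero => simp
    | succ j ih => rw [pow_succ', mul_assoc, h2, ih]
  have h1 : ∀ k0 : ℕ, ∃ m, 1 ≤ m ∧ m ≤ 8 * m0 + 1 ∧
      ∀ r, r + D < 2 ^ k0 → c (r + 2 ^ k0 * m) = c (r + D + 2 ^ k0 * m) := by
    intro k0
    obtain ⟨x, hx, hxc⟩ := H (4 * m0 * 2 ^ k0)
    have hex : ∃ k, x < 4 * m0 * 2 ^ (k + 1) := by
      obtain ⟨k, hk⟩ := exists_nat_gt x
      refine ⟨k, ?_⟩
      have h2 : k < 2 ^ (k + 1) := (Nat.lt_two_pow_self).trans_le
        (Nat.pow_le_pow_right (by norm_num) (by omega))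
      calc x < k := by exact_mod_cast hk
        _ < 2 ^ (k + 1) := h2
        _ ≤ 4 * m0 * 2 ^ (k + 1) := Nat.le_mul_of_pos_left _ (by omega)
    set k' := Nat.find hex with hk'
    have hk1 : x < 4 * m0 * 2 ^ (k' + 1) := Nat.find_spec hex
    have hk0 : k0 ≤ k' := by
      by_contra hcon
      have : 4 * m0 * 2 ^ (k' + 1) ≤ 4 * m0 * 2 ^ k0 :=
        Nat.mul_le_mul_left _ (Nat.pow_le_pow_right (by norm_num) (by omega))
      omega
    have hk2 : 4 * m0 * 2 ^ k' ≤ x := by
      rcases Nat.eq_zero_or_pos k' with h0 | h0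
      · rw [h0]
        have : 4 * m0 * 2 ^ 0 ≤ 4 * m0 * 2 ^ k0 :=
          Nat.mul_le_mul_left _ (Nat.pow_le_pow_right (by norm_num) (by omega))
        omega
      · have := Nat.find_min hex (m := k' - 1) (by omega)
        rw [show k' - 1 + 1 = k' by omega] at this
        omega
    set p := 2 ^ k' with hp
    have hppos : 0 < p := by positivity
    set m := x / p + 1 with hm
    have hmx : x < p * m := by
      rw [hm]; exact Nat.lt_mul_div_succ x hppos
    have hmx2 : p * m ≤ x + p := by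
      rw [hm, mul_add, mul_one]
      have := Nat.mul_div_le x p
      omega
    have hmle : m ≤ 8 * m0 + 1 := by
      rw [pow_succ, ← hp] at hk1
      have : x / p < 8 * m0 := by
        rw [Nat.div_lt_iff_lt_mul hppos]
        calc x < 4 * m0 * (p * 2) := hk1
          _ = 8 * m0 * p := by ring
      omega
    -- one step of length `D` in the block
    have hblock : ∀ r, r + D < p → c (r + p * m) = c (r + D + p * m) := by
      intro r hr
      rw [show r + D + p * m = r + p * m + D by ring]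
      apply hxc
      · omega
      · have : r + p * m + D < x + 2 * p := by omega
        nlinarith
    -- many steps
    have hmany : ∀ t r, r + t * D < p → c (r + p * m) = c (r + t * D + p * m) := by
      intro t
      induction t with
      | zero => intro r _; simp
      | succ t ih =>
        intro r hr
        rw [ih r (by nlinarith), show r + (t + 1) * D = (r + t * D) + D by ring]
        exact hblock _ (by nlinarith)
    refine ⟨m, Nat.le_add_left 1 _, hmle, fun r hr => ?_⟩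
    have hpp : p = 2 ^ (k' - k0) * 2 ^ k0 := by rw [← pow_add, hp]; congr 1; omega
    have e3 : c (2 ^ (k' - k0) * (r + 2 ^ k0 * m)) = c (r + 2 ^ k0 * m) := hpow _ _
    have e5 : c (2 ^ (k' - k0) * (r + D + 2 ^ k0 * m)) = c (r + D + 2 ^ k0 * m) := hpow _ _
    rw [← e3, ← e5]
    have e4 : 2 ^ (k' - k0) * (r + 2 ^ k0 * m) = 2 ^ (k' - k0) * r + p * m := by
      rw [hpp]; ring
    have e6 : 2 ^ (k' - k0) * (r + D + 2 ^ k0 * m) =
        2 ^ (k' - k0) * r + 2 ^ (k' - k0) * D + p * m := by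
      rw [hpp]; ring
    rw [e4, e6]
    apply hmany
    rw [← mul_add, hpp]
    exact Nat.mul_lt_mul_of_pos_left hr (by positivity)
  obtain ⟨m, hm1, hm2⟩ : ∃ m, 1 ≤ m ∧
      ∀ k r, r + D < 2 ^ k → c (r + 2 ^ k * m) = c (r + D + 2 ^ k * m) := by
    by_contra hcon
    push Not at hcon
    have h2' : ∀ m, ∃ k, 1 ≤ m → ∃ r, r + D < 2 ^ k ∧ c (r + 2 ^ k * m) ≠ c (r + D + 2 ^ k * m) := by
      intro m
      by_cases hm : 1 ≤ m
      · obtain ⟨k, r, hr⟩ := hcon m hm
        exact ⟨k, fun _ => ⟨r, hr⟩⟩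
      · exact ⟨0, fun h => absurd h hm⟩
    choose kk hkk using h2'
    set k0 := (∑ m ∈ Finset.range (8 * m0 + 2), kk m) with hk0
    -- in the block at level `k0 + D` many steps are possible
    obtain ⟨m, hm1, hm2, hm3⟩ := h1 k0
    have hle : kk m ≤ k0 := Finset.single_le_sum (f := kk) (fun _ _ => Nat.zero_le _)
      (Finset.mem_range.mpr (by omega))
    obtain ⟨r, hr, hne⟩ := hkk m hm1
    apply hne
    have hmany : ∀ t r, r + t * D < 2 ^ k0 → c (r + 2 ^ k0 * m) = c (r + t * D + 2 ^ k0 * m) := by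
      intro t
      induction t with
      | zero => intro r _; simp
      | succ t ih =>
        intro r hr
        rw [ih r (by nlinarith), show r + (t + 1) * D = (r + t * D) + D by ring]
        exact hm3 _ (by nlinarith)
    have hpp : 2 ^ k0 = 2 ^ (k0 - kk m) * 2 ^ kk m := by rw [← pow_add]; congr 1; omega
    rw [← hpow (k0 - kk m) (r + 2 ^ kk m * m), ← hpow (k0 - kk m) (r + D + 2 ^ kk m * m)]
    have e4 : 2 ^ (k0 - kk m) * (r + 2 ^ kk m * m) = 2 ^ (k0 - kk m) * r + 2 ^ k0 * m := by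
      rw [hpp]; ring
    have e6 : 2 ^ (k0 - kk m) * (r + D + 2 ^ kk m * m) =
        2 ^ (k0 - kk m) * r + 2 ^ (k0 - kk m) * D + 2 ^ k0 * m := by
      rw [hpp]; ring
    rw [e4, e6]
    apply hmany
    rw [← mul_add, hpp]
    exact Nat.mul_lt_mul_of_pos_left hr (by positivity)
  exact ⟨m, hm1, hm2⟩

/-- `k`-regular sequences, almost everywhere `D`-periodic and invariant under doubling, are
`D`-periodic on the dyadic blocks `[2^k m, 2^k (m + 1))`. -/
lemma dyadic_of_regular {R M : Type*} [Ring R] [IsNoetherianRing R] [AddCommGroup M]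
    [Module R M] {c : ℕ → M} {D : ℕ} (hD : 1 ≤ D) (h2 : ∀ n, c (2 * n) = c n)
    (hzd : ZD {n : ℕ | c n ≠ c (n + D)}) {k : ℕ} (hk : 2 ≤ k)
    (hfin : (Submodule.span R (kernel k c)).FG) :
    ∃ m, 1 ≤ m ∧ ∀ k r, r + D < 2 ^ k → c (r + 2 ^ k * m) = c (r + D + 2 ^ k * m) := by
  obtain ⟨m, hm, hblock⟩ := exists_block hzd hk hfin
  refine dyadic hD h2 hm (fun X => ⟨k ^ X * m, ?_, fun y hy1 hy2 => ?_⟩)
  · have : X < k ^ X := Nat.lt_pow_self (by omega)
    nlinarith
  · obtain ⟨r, rfl⟩ : ∃ r, y = k ^ X * m + r := ⟨y - k ^ X * m, by omega⟩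
    apply hblock
    have h1 : m * (k ^ X * m + r + D) < (m + 1) * (k ^ X * m) := hy2
    have h2 : m * (r + D) < m * k ^ X := by nlinarith
    exact lt_of_mul_lt_mul_left h2 (Nat.zero_le _)

end Pool.Agent.H284R3.RD
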