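import Mathlib
import Pool.Agent.H397R2.Reg

set_option autoImplicit false

namespace Pool.Agent.H284R3.RD

open Pool.Agent.Helper605.CP Pool.Agent.H397R2 Filter Topology

/-- The `3x+d` map. -/
def T (d x : ℤ) : ℤ := if x % 2 = 0 then x / 2 else (3 * x + d) / 2

lemma T_iter {d : ℤ} (hd : d % 2 = 1) (m : ℕ) : ∀ (y : ℕ) (z : ℤ),
    (T d)^[m] (d * y + 2 ^ m * z) = d * ((orb m y).2 : ℤ) + 3 ^ (orb m y).1 * z := by
  induction m with
  | zero => intro y z; simp [orb_zero]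
  | succ m ih =>
    intro y z
    rw [Function.iterate_succ_apply', show (2 : ℤ) ^ (m + 1) * z = 2 ^ m * (2 * z) by ring, ih,
      orb_succ]
    generalize orb m y = s
    obtain ⟨a, p⟩ := s
    simp only [st1, mul_zero, zero_add]
    obtain ⟨w, hw⟩ : ∃ w : ℤ, w = 3 ^ a * z := ⟨_, rfl⟩
    have h2 : (3 : ℤ) ^ a * (2 * z) = 2 * w := by rw [hw]; ring
    have h3 : (3 : ℤ) ^ (a + 1) * z = 3 * w := by rw [hw]; ring
    obtain ⟨e, rfl⟩ : ∃ e, d = 2 * e + 1 := ⟨d / 2, by omega⟩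
    rw [h2]
    rcases Nat.even_or_odd' p with ⟨t, rfl | rfl⟩
    · rw [if_pos (by omega : (2 * t) % 2 = 0)]
      have e1 : (2 * e + 1) * ((2 * t : ℕ) : ℤ) + 2 * w = 2 * ((2 * e + 1) * t + w) := by
        push_cast; ring
      rw [e1]
      unfold T
      rw [if_pos (by omega)]
      simp only [Nat.mul_div_cancel_left t (by norm_num : 0 < 2)]
      rw [← hw]
      omega
    · rw [if_neg (by omega : ¬ (2 * t + 1) % 2 = 0)]
      have e1 : (2 * e + 1) * ((2 * t + 1 : ℕ) : ℤ) + 2 * w =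
          2 * ((2 * e + 1) * t + w + e) + 1 := by
        push_cast; ring
      rw [e1]
      unfold T
      rw [if_neg (by omega)]
      have e2 : (3 * (2 * t + 1) + 1) / 2 = 3 * t + 2 := by omega
      simp only [e2]
      rw [h3]
      have e3 : (2 * e + 1) * ((3 * t + 2 : ℕ) : ℤ) = 3 * ((2 * e + 1) * t) + 4 * e + 2 := by
        push_cast; ring
      rw [e3]
      generalize (2 * e + 1) * (t : ℤ) = g
      omega

variable {α : Type*}

lemma inv_iter {d : ℤ} {c : ℤ → α} (h : ∀ x, c (T d x) = c x) (m : ℕ) (x : ℤ) :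
    c ((T d)^[m] x) = c x := by
  induction m with
  | zero => rfl
  | succ m ih => rw [Function.iterate_succ_apply', h, ih]

lemma inv_two {d : ℤ} {c : ℤ → α} (h : ∀ x, c (T d x) = c x) (x : ℤ) : c (2 * x) = c x := by
  have h1 := h (2 * x)
  unfold T at h1
  rw [if_pos (by omega), Int.mul_ediv_cancel_left x (by norm_num)] at h1
  exact h1.symm

lemma inv_pow {d : ℤ} {c : ℤ → α} (h : ∀ x, c (T d x) = c x) (j : ℕ) (x : ℤ) :
    c (2 ^ j * x) = c x := by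
  induction j with
  | zero => simp
  | succ j ih => rw [pow_succ', mul_assoc, inv_two h, ih]

/-- The bound for the integers below `N` in one class modulo `r`. -/
lemma class_count (r : ℕ) (hr : 0 < r) (v : ℤ) (N : ℕ) :
    (({n : ℕ | n ∈ Set.Icc 1 N ∧ (n : ℤ) ≡ v [ZMOD r]}).ncard : ℝ) ≤ N / r + 1 := by
  have h1 : {n : ℕ | n ∈ Set.Icc 1 N ∧ (n : ℤ) ≡ v [ZMOD r]} =
      ↑({n ∈ Finset.Ioc 0 N | n ≡ (v % r).toNat [MOD r]}) := by
    ext n
    simp only [Set.mem_setOf_eq, Set.mem_Icc, Finset.coe_filter, Finset.mem_Ioc]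
    have hv : (((v % r).toNat : ℕ) : ℤ) = v % r :=
      Int.toNat_of_nonneg (Int.emod_nonneg _ (by omega))
    have : (n : ℤ) ≡ v [ZMOD r] ↔ n ≡ (v % r).toNat [MOD r] := by
      rw [← Int.natCast_modEq_iff, hv]
      constructor
      · intro h; exact h.trans (Int.mod_modEq v r).symm
      · intro h; exact h.trans (Int.mod_modEq v r)
    rw [this]
    constructor
    · rintro ⟨⟨a, b⟩, c⟩; exact ⟨⟨by omega, b⟩, c⟩
    · rintro ⟨⟨a, b⟩, c⟩; exact ⟨⟨by omega, b⟩, c⟩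
  rw [h1, Set.ncard_coe_finset]
  have h2 := Nat.Ioc_filter_modEq_card 0 N hr (v % r).toNat
  have h3 : ((Finset.card {n ∈ Finset.Ioc 0 N | n ≡ (v % r).toNat [MOD r]} : ℕ) : ℤ) =
    max (⌊(N - ((v % r).toNat : ℚ)) / r⌋ - ⌊((0 : ℕ) - ((v % r).toNat : ℚ)) / r⌋) 0 := by
    exact_mod_cast h2
  set C := Finset.card {n ∈ Finset.Ioc 0 N | n ≡ (v % r).toNat [MOD r]} with hC
  have hr' : (0 : ℚ) < r := by exact_mod_cast hr
  have h4 : ((C : ℤ) : ℚ) ≤ N / r + 1 := by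
    rw [h3]
    rw [Int.cast_max]
    apply max_le
    · push_cast
      have h5 := Int.floor_le (((N : ℚ) - ((v % r).toNat : ℚ)) / r)
      have h6 := Int.lt_floor_add_one ((0 - ((v % r).toNat : ℚ)) / r)
      have h7 : ((N : ℚ) - ((v % r).toNat : ℚ)) / r - (0 - ((v % r).toNat : ℚ)) / r = N / r := by
        rw [← sub_div]; congr 1; ring
      linarith
    · push_cast; positivity
  have h8 : (C : ℚ) ≤ N / r + 1 := by exact_mod_cast h4
  have h9 : ((C : ℚ) : ℝ) ≤ ((N / r + 1 : ℚ) : ℝ) := Rat.cast_le.mpr h8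
  push_cast at h9
  exact h9

/-- **Coalescence.** A `T_d`-invariant function satisfies `c (n + e) = c (n + e + d)` for almost all
`n`. -/
lemma zd {d : ℤ} (hd : d % 2 = 1) {c : ℤ → α} (h : ∀ x, c (T d x) = c x) (e : ℤ) :
    ZD {n : ℕ | c (n + e) ≠ c (n + e + d)} := by
  classical
  intro ε hε
  obtain ⟨m, hm, hum⟩ := u_small ((0, 0), (0, 1)) (ε / 2) (by positivity)
  set S : Finset ℕ := (Finset.range (2 ^ m)).filter (fun y => ¬ orb m y = orb m (y + 1)) with hS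
  have hScard : (S.card : ℝ) = 2 ^ m * u m ((0, 0), (0, 1)) := by
    have h1 := sum_u m 0
    rw [add_zero] at h1
    rw [← h1, hS, Finset.card_filter]
    push_cast
    refine Finset.sum_congr rfl (fun n _ => ?_)
    simp only [u]
    by_cases h2 : orb m n = orb m (n + 1) <;> simp [h2]
  obtain ⟨N0, hN0⟩ := exists_nat_gt ((2 : ℝ) ^ m / (ε / 2))
  refine ⟨N0 + 1, fun N hN => ?_⟩
  have hNpos : (0 : ℝ) < N := by exact_mod_cast (by omega : 0 < N)
  have hsub : {n : ℕ | c (n + e) ≠ c (n + e + d)} ∩ Set.Icc 1 N ⊆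
      ⋃ y ∈ S, {n : ℕ | n ∈ Set.Icc 1 N ∧ (n : ℤ) ≡ d * y - e [ZMOD ((2 ^ m : ℕ) : ℤ)]} := by
    rintro n ⟨hn, hnN⟩
    -- representation of `n + e`
    have hcop : IsCoprime d ((2 : ℤ) ^ m) := by
      apply IsCoprime.pow_right
      refine ⟨1, -(d / 2), by omega⟩
    obtain ⟨u1, v1, huv⟩ := hcop
    set w : ℤ := (u1 * (n + e)) % 2 ^ m with hw
    have hw0 : 0 ≤ w := Int.emod_nonneg _ (by positivity)
    have hw1 : w < 2 ^ m := Int.emod_lt_of_pos _ (by positivity)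
    obtain ⟨y, hy⟩ : ∃ y : ℕ, w = y := ⟨w.toNat, (Int.toNat_of_nonneg hw0).symm⟩
    have hylt : y < 2 ^ m := by
      rw [hy] at hw1
      exact_mod_cast hw1
    obtain ⟨z, hz⟩ : ∃ z : ℤ, (n : ℤ) + e = d * y + 2 ^ m * z := by
      refine ⟨v1 * (n + e) + d * ((u1 * (n + e)) / 2 ^ m), ?_⟩
      have h3 := Int.mul_ediv_add_emod (u1 * (n + e)) (2 ^ m)
      rw [← hw, hy] at h3
      have h4 : ((y : ℤ)) = u1 * (n + e) - 2 ^ m * (u1 * (n + e) / 2 ^ m) := by linarith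
      rw [h4]
      linear_combination (-(n + e : ℤ)) * huv
    simp only [Set.mem_iUnion]
    refine ⟨y, ?_, hnN, ?_⟩
    · rw [hS, Finset.mem_filter, Finset.mem_range]
      refine ⟨hylt, fun hyy => hn ?_⟩
      have h5 := T_iter hd m y z
      have h6 := T_iter hd m (y + 1) z
      rw [← hyy, ← h5] at h6
      have h7 : d * ((y + 1 : ℕ) : ℤ) + 2 ^ m * z = n + e + d := by
        push_cast
        rw [hz]; ring
      rw [h7, ← hz] at h6
      rw [← inv_iter h m (n + e), ← inv_iter h m (n + e + d), h6]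
    · have : (n : ℤ) = d * y - e + 2 ^ m * z := by linarith
      rw [this]
      push_cast
      exact Int.modEq_iff_dvd.mpr ⟨-z, by ring⟩
  have hfin : (⋃ y ∈ S, {n : ℕ | n ∈ Set.Icc 1 N ∧
      (n : ℤ) ≡ d * y - e [ZMOD ((2 ^ m : ℕ) : ℤ)]}).Finite := by
    refine (Set.finite_Icc 1 N).subset ?_
    intro x hx
    simp only [Set.mem_iUnion] at hx
    obtain ⟨y, _, hx, _⟩ := hx
    exact hx
  have h1 := Set.ncard_le_ncard hsub hfin
  have h2 : ((⋃ y ∈ S, {n : ℕ | n ∈ Set.Icc 1 N ∧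
      (n : ℤ) ≡ d * y - e [ZMOD ((2 ^ m : ℕ) : ℤ)]}).ncard : ℝ) ≤
      ∑ y ∈ S, ((N : ℝ) / ((2 ^ m : ℕ) : ℝ) + 1) := by
    have h3 : (⋃ y ∈ S, {n : ℕ | n ∈ Set.Icc 1 N ∧
      (n : ℤ) ≡ d * y - e [ZMOD ((2 ^ m : ℕ) : ℤ)]}).ncard ≤ ∑ y ∈ S, {n : ℕ | n ∈ Set.Icc 1 N ∧
      (n : ℤ) ≡ d * y - e [ZMOD ((2 ^ m : ℕ) : ℤ)]}.ncard := by
      exact Finset.set_ncard_biUnion_le S _
    calc ((⋃ y ∈ S, {n : ℕ | n ∈ Set.Icc 1 N ∧
        (n : ℤ) ≡ d * y - e [ZMOD ((2 ^ m : ℕ) : ℤ)]}).ncard : ℝ) ≤ ((∑ y ∈ S, {n : ℕ | n ∈ Set.Icc 1 N ∧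
        (n : ℤ) ≡ d * y - e [ZMOD ((2 ^ m : ℕ) : ℤ)]}.ncard : ℕ) : ℝ) := by exact_mod_cast h3
      _ ≤ _ := by
        push_cast
        apply Finset.sum_le_sum
        intro y _
        have := class_count (2 ^ m) (by positivity) (d * y - e) N
        push_cast at this
        exact this
  have h4 : (({n : ℕ | c (n + e) ≠ c (n + e + d)} ∩ Set.Icc 1 N).ncard : ℝ) ≤
      S.card * ((N : ℝ) / ((2 ^ m : ℕ) : ℝ) + 1) := by
    rw [Finset.sum_const, nsmul_eq_mul] at h2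
    exact le_trans (by exact_mod_cast h1) h2
  refine h4.trans ?_
  rw [hScard]
  push_cast
  have h5 : (0 : ℝ) < 2 ^ m := by positivity
  have hu0 : 0 ≤ u m ((0, 0), (0, 1)) := u_nonneg m _
  have hu1 : u m ((0, 0), (0, 1)) ≤ 1 := u_le_one m _
  have h6 : (2 : ℝ) ^ m * u m ((0, 0), (0, 1)) * ((N : ℝ) / 2 ^ m + 1) =
      u m ((0, 0), (0, 1)) * N + 2 ^ m * u m ((0, 0), (0, 1)) := by
    field_simp
  rw [h6]
  have h7 : (2 : ℝ) ^ m ≤ ε / 2 * N := by
    rw [div_lt_iff₀ (by positivity)] at hN0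
    have : (N0 : ℝ) ≤ N := by exact_mod_cast (by omega : N0 ≤ N)
    nlinarith
  nlinarith

end Pool.Agent.H284R3.RD
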