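import Mathlib
import Pool.Agent.H284R3.RD.Core

set_option autoImplicit false

namespace Pool.Agent.H284R3.RD

open Pool.Agent.Helper605.CP Pool.Agent.H397R2 Filter Topology

lemma orb_bound (K y : ℕ) : 3 ^ (orb K y).1 * y ≤ 2 ^ K * (orb K y).2 ∧
    2 ^ (orb K y).1 * (2 ^ K * (orb K y).2) + 2 ^ K * 2 ^ (orb K y).1 ≤
      2 ^ K * 3 ^ (orb K y).1 + 2 ^ (orb K y).1 * (3 ^ (orb K y).1 * y) := by
  induction K with
  | zero => simp [orb_zero]
  | succ K ih =>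
    rw [orb_succ]
    revert ih
    generalize orb K y = s
    obtain ⟨q, p⟩ := s
    simp only
    rintro ⟨h1, h2⟩
    simp only [st1, mul_zero, zero_add]
    rcases Nat.even_or_odd' p with ⟨t, rfl | rfl⟩
    · rw [if_pos (by omega : (2 * t) % 2 = 0)]
      simp only [Nat.mul_div_cancel_left t (by norm_num : 0 < 2)]
      have e1 : 2 ^ (K + 1) * t = 2 ^ K * (2 * t) := by rw [pow_succ]; ring
      rw [e1]
      refine ⟨h1, ?_⟩
      have h3 : 2 ^ q ≤ 3 ^ q := Nat.pow_le_pow_left (by norm_num) q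
      have h4 : 2 ^ K * 2 ^ q ≤ 2 ^ K * 3 ^ q := Nat.mul_le_mul_left _ h3
      rw [pow_succ]
      nlinarith
    · rw [if_neg (by omega : ¬ (2 * t + 1) % 2 = 0)]
      have e2 : (3 * (2 * t + 1) + 1) / 2 = 3 * t + 2 := by omega
      simp only [e2]
      have e1 : 2 ^ (K + 1) * (3 * t + 2) = 3 * (2 ^ K * (2 * t + 1)) + 2 ^ K := by
        rw [pow_succ]; ring
      have e3 : 3 ^ (q + 1) * y = 3 * (3 ^ q * y) := by rw [pow_succ]; ring
      rw [e1, e3]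
      constructor
      · have h5 : 0 ≤ 2 ^ K := Nat.zero_le _
        linarith
      · have e4 : 2 ^ (q + 1) * (3 * (2 ^ K * (2 * t + 1)) + 2 ^ K) + 2 ^ (K + 1) * 2 ^ (q + 1) =
            6 * (2 ^ q * (2 ^ K * (2 * t + 1)) + 2 ^ K * 2 ^ q) := by
          rw [pow_succ, pow_succ]; ring
        have e5 : 2 ^ (K + 1) * 3 ^ (q + 1) + 2 ^ (q + 1) * (3 * (3 ^ q * y)) =
            6 * (2 ^ K * 3 ^ q + 2 ^ q * (3 ^ q * y)) := by
          rw [pow_succ, pow_succ, pow_succ]; ring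
        rw [e4, e5]
        omega

/-- powers of `2` over powers of `3` with exponents in given progressions -/
lemma pow_between (φ α β t0 : ℕ) (hφ : 1 ≤ φ) (m n : ℕ) (hn : 1 ≤ n) :
    ∃ s t : ℕ, t0 ≤ t ∧ (4 * m + 1) * 3 ^ (β + φ * t) < 4 * (2 ^ (α + φ * s) * n) ∧
      4 * (2 ^ (α + φ * s) * n) < (4 * m + 3) * 3 ^ (β + φ * t) := by
  have hnpos : (0 : ℝ) < n := by exact_mod_cast hn
  set A : ℝ := (4 * m + 1) * 3 ^ β / (4 * (2 ^ α * n)) with hA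
  set B : ℝ := (4 * m + 3) * 3 ^ β / (4 * (2 ^ α * n)) with hB
  have hApos : 0 < A := by positivity
  have hBpos : 0 < B := by positivity
  have hAB : A < B := by
    apply div_lt_div_of_pos_right _ (by positivity)
    apply mul_lt_mul_of_pos_right _ (by positivity)
    linarith
  have hφ' : (0 : ℝ) < φ := by exact_mod_cast hφ
  have hAφ : (A ^ ((1 : ℝ) / φ)) ^ φ = A := by
    rw [← Real.rpow_natCast, ← Real.rpow_mul hApos.le, one_div, inv_mul_cancel₀ hφ'.ne',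
      Real.rpow_one]
  have hBφ : (B ^ ((1 : ℝ) / φ)) ^ φ = B := by
    rw [← Real.rpow_natCast, ← Real.rpow_mul hBpos.le, one_div, inv_mul_cancel₀ hφ'.ne',
      Real.rpow_one]
  have hA1 : 0 < A ^ ((1 : ℝ) / φ) := Real.rpow_pos_of_pos hApos _
  have hB1 : 0 < B ^ ((1 : ℝ) / φ) := Real.rpow_pos_of_pos hBpos _
  have hAB1 : A ^ ((1 : ℝ) / φ) < B ^ ((1 : ℝ) / φ) :=
    Real.rpow_lt_rpow hApos.le hAB (by positivity)
  obtain ⟨s, t, h1, h2⟩ := exists_pow_between (K := 3) (by norm_num) (by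
      intro a b ha hab
      have := pow_mult_indep (k := 3) (fun a h => by
        have h4 : (3 : ℕ) % 2 = 1 := rfl
        rw [h] at h4
        rcases Nat.eq_zero_or_pos a with h5 | h5
        · subst h5; norm_num at h
        · have : 2 ^ a % 2 = 0 := Nat.mod_eq_zero_of_dvd (dvd_pow_self 2 (by omega))
          omega) (p := 1) le_rfl a b ha
      exact this (by simpa using hab))
    (x := A ^ ((1 : ℝ) / φ) * 3 ^ t0) (y := B ^ ((1 : ℝ) / φ) * 3 ^ t0) (by positivity)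
    (mul_lt_mul_of_pos_right hAB1 (by positivity))
  push_cast at h1 h2
  have h1' := pow_lt_pow_left₀ h1 (by positivity) (by omega : φ ≠ 0)
  have h2' := pow_lt_pow_left₀ h2 (by positivity) (by omega : φ ≠ 0)
  have e1 : (A ^ ((1 : ℝ) / φ) * 3 ^ t0 * 3 ^ t) ^ φ = A * 3 ^ (φ * (t0 + t)) := by
    rw [mul_assoc, ← pow_add, mul_pow, hAφ, ← pow_mul, mul_comm φ]
  have e2 : (B ^ ((1 : ℝ) / φ) * 3 ^ t0 * 3 ^ t) ^ φ = B * 3 ^ (φ * (t0 + t)) := by
    rw [mul_assoc, ← pow_add, mul_pow, hBφ, ← pow_mul, mul_comm φ]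
  have e3 : ((2 : ℝ) ^ s) ^ φ = 2 ^ (φ * s) := by rw [← pow_mul, mul_comm]
  rw [e1, e3] at h1'
  rw [e2, e3] at h2'
  refine ⟨s, t0 + t, by omega, ?_, ?_⟩
  · rw [hA, div_mul_eq_mul_div, div_lt_iff₀ (by positivity)] at h1'
    have : ((4 * m + 1) * 3 ^ (β + φ * (t0 + t)) : ℝ) < 4 * (2 ^ (α + φ * s) * n) := by
      rw [pow_add, pow_add]
      calc ((4 * m + 1) * (3 ^ β * 3 ^ (φ * (t0 + t))) : ℝ) =
          (4 * m + 1) * 3 ^ β * 3 ^ (φ * (t0 + t)) := by ring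
        _ < 2 ^ (φ * s) * (4 * (2 ^ α * n)) := h1'
        _ = _ := by ring
    exact_mod_cast this
  · rw [hB, div_mul_eq_mul_div, lt_div_iff₀ (by positivity)] at h2'
    have : (4 * (2 ^ (α + φ * s) * n) : ℝ) < (4 * m + 3) * 3 ^ (β + φ * (t0 + t)) := by
      rw [pow_add, pow_add]
      calc (4 * (2 ^ α * 2 ^ (φ * s) * n) : ℝ) = 2 ^ (φ * s) * (4 * (2 ^ α * n)) := by ring
        _ < (4 * m + 3) * 3 ^ β * 3 ^ (φ * (t0 + t)) := h2'
        _ = _ := by ring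
    exact_mod_cast this

lemma target {d : ℤ} (hd : d % 2 = 1) (h3 : ¬ (3 : ℤ) ∣ d) (φ α β : ℕ) (hφ : 1 ≤ φ) (m n : ℕ)
    (hn : 1 ≤ n) (hn3 : ¬ 3 ∣ n) :
    ∃ s t K0 : ℕ, ∀ K, K0 ≤ K → ∃ r : ℕ, r < 2 ^ K ∧
      (T d)^[K] ((r + 2 ^ K * m : ℕ) : ℤ) = 2 ^ (α + φ * s) * (n : ℤ) ∧
      ((r + 2 ^ K * m : ℕ) : ℤ) * 3 ^ (β + φ * t) ≡ 2 ^ K * (2 ^ (α + φ * s) * n) [ZMOD d] := by
  obtain ⟨s, t, ht, hlo, hhi⟩ := pow_between φ α β (4 * d.natAbs + 1) hφ m n hn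
  set q := β + φ * t with hq
  set N := 2 ^ (α + φ * s) * n with hN
  have hqbig : 4 * d.natAbs + 1 ≤ q := by
    have : t ≤ φ * t := Nat.le_mul_of_pos_left t hφ
    omega
  have hq2 : 4 * d.natAbs < 2 ^ q := by
    have : q < 2 ^ q := Nat.lt_two_pow_self
    omega
  have hN3 : ¬ 3 ∣ N := by
    intro h
    rcases (Nat.Prime.dvd_mul Nat.prime_three).mp h with h6 | h6
    · have := Nat.Prime.dvd_of_dvd_pow Nat.prime_three h6
      omega
    · exact hn3 h6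
  -- the residue `p`
  have hcop : IsCoprime d ((3 : ℤ) ^ q) := by
    apply IsCoprime.pow_right
    exact ((Int.prime_three.coprime_iff_not_dvd).mpr h3).symm
  obtain ⟨u1, v1, huv⟩ := hcop
  set w : ℤ := (u1 * N) % 3 ^ q with hw
  have hw0 : 0 ≤ w := Int.emod_nonneg _ (by positivity)
  have hw1 : w < 3 ^ q := Int.emod_lt_of_pos _ (by positivity)
  obtain ⟨p, hp⟩ : ∃ y : ℕ, w = y := ⟨w.toNat, (Int.toNat_of_nonneg hw0).symm⟩
  have hplt : p < 3 ^ q := by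
    rw [hp] at hw1
    exact_mod_cast hw1
  obtain ⟨z, hz⟩ : ∃ z : ℤ, (N : ℤ) = d * p + 3 ^ q * z := by
    refine ⟨v1 * N + d * ((u1 * N) / 3 ^ q), ?_⟩
    have h3 := Int.mul_ediv_add_emod (u1 * N) (3 ^ q)
    rw [← hw, hp] at h3
    have h4 : ((p : ℤ)) = u1 * N - 3 ^ q * (u1 * N / 3 ^ q) := by linarith
    rw [h4]
    linear_combination (-(N : ℤ)) * huv
  have hp3 : ¬ 3 ∣ p := by
    intro h
    apply hN3
    have h5 : (3 : ℤ) ∣ N := by
      rw [hz]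
      apply dvd_add
      · exact Dvd.dvd.mul_left (by exact_mod_cast h) d
      · exact Dvd.dvd.mul_right (dvd_pow_self 3 (by omega)) z
    exact_mod_cast h5
  obtain ⟨K0, hK0⟩ := reach q p (Or.inr ⟨hplt, hp3⟩)
  refine ⟨s, t, K0, fun K hK => ?_⟩
  obtain ⟨y, hy, horb⟩ := hK0 K hK
  have hb := orb_bound K y
  rw [horb] at hb
  simp only at hb
  obtain ⟨hb1, hb2⟩ := hb
  have hT := T_iter hd K y z
  rw [horb] at hT
  simp only at hT
  rw [← hz] at hT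
  set x : ℤ := d * y + 2 ^ K * z with hx
  -- the size of `x`
  set E : ℤ := 2 ^ K * p - 3 ^ q * y with hE
  have hE0 : 0 ≤ E := by
    rw [hE]
    have : ((3 ^ q * y : ℕ) : ℤ) ≤ ((2 ^ K * p : ℕ) : ℤ) := by exact_mod_cast hb1
    push_cast at this
    linarith
  have hE1 : 2 ^ q * E < 2 ^ K * 3 ^ q := by
    have : ((2 ^ q * (2 ^ K * p) + 2 ^ K * 2 ^ q : ℕ) : ℤ) ≤
      ((2 ^ K * 3 ^ q + 2 ^ q * (3 ^ q * y) : ℕ) : ℤ) := by exact_mod_cast hb2
    push_cast at this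
    have hpos : (0 : ℤ) < 2 ^ K * 2 ^ q := by positivity
    rw [hE, mul_sub]
    linarith
  have hx3 : 3 ^ q * x = 2 ^ K * N - d * E := by
    rw [hx, hE, hz]; ring
  have hdE : |4 * (d * E)| < 2 ^ K * 3 ^ q := by
    rw [abs_mul, abs_mul, abs_of_nonneg hE0]
    have h5 : (4 : ℤ) * |d| ≤ 2 ^ q := by
      have : ((4 * d.natAbs : ℕ) : ℤ) < ((2 ^ q : ℕ) : ℤ) := by exact_mod_cast hq2
      push_cast at this
      linarith
    have h6 : (|(4 : ℤ)| : ℤ) = 4 := rfl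
    rw [h6, ← mul_assoc]
    calc 4 * |d| * E ≤ 2 ^ q * E := mul_le_mul_of_nonneg_right h5 hE0
      _ < _ := hE1
  rw [abs_lt] at hdE
  obtain ⟨hdE1, hdE2⟩ := hdE
  have hlo' : ((4 * m + 1) * 3 ^ q : ℤ) < 4 * N := by exact_mod_cast hlo
  have hhi' : (4 * N : ℤ) < (4 * m + 3) * 3 ^ q := by exact_mod_cast hhi
  have h2K : (0 : ℤ) < 2 ^ K := by positivity
  have h3q : (0 : ℤ) < 3 ^ q := by positivity
  have hlo2 : (2 : ℤ) ^ K * ((4 * m + 1) * 3 ^ q) < 2 ^ K * (4 * N) :=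
    mul_lt_mul_of_pos_left hlo' h2K
  have hhi2 : (2 : ℤ) ^ K * (4 * N) < 2 ^ K * ((4 * m + 3) * 3 ^ q) :=
    mul_lt_mul_of_pos_left hhi' h2K
  have hxlo : 2 ^ K * (m : ℤ) < x := by
    have : (3 : ℤ) ^ q * (2 ^ K * m) < 3 ^ q * x := by
      rw [hx3]
      have : 4 * ((3 : ℤ) ^ q * (2 ^ K * m)) < 4 * (2 ^ K * N - d * E) := by
        calc 4 * ((3 : ℤ) ^ q * (2 ^ K * m)) = 2 ^ K * ((4 * m + 1) * 3 ^ q) - 2 ^ K * 3 ^ q := by
              ring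
          _ < 2 ^ K * (4 * N) - 4 * (d * E) := by linarith
          _ = _ := by ring
      linarith
    exact lt_of_mul_lt_mul_left this h3q.le
  have hxhi : x < 2 ^ K * ((m : ℤ) + 1) := by
    have : (3 : ℤ) ^ q * x < 3 ^ q * (2 ^ K * (m + 1)) := by
      rw [hx3]
      have : 4 * (2 ^ K * N - d * E) < 4 * ((3 : ℤ) ^ q * (2 ^ K * (m + 1))) := by
        calc 4 * (2 ^ K * N - d * E) = 2 ^ K * (4 * N) - 4 * (d * E) := by ring
          _ < 2 ^ K * ((4 * m + 3) * 3 ^ q) + 2 ^ K * 3 ^ q := by linarith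
          _ = _ := by ring
      linarith
    exact lt_of_mul_lt_mul_left this h3q.le
  obtain ⟨r, hr⟩ : ∃ r : ℕ, x = ((r + 2 ^ K * m : ℕ) : ℤ) := by
    refine ⟨(x - 2 ^ K * m).toNat, ?_⟩
    push_cast
    rw [Int.toNat_of_nonneg (by linarith)]
    ring
  refine ⟨r, ?_, ?_, ?_⟩
  · rw [hr] at hxhi
    push_cast at hxhi
    have : (r : ℤ) < 2 ^ K := by linarith
    exact_mod_cast this
  · rw [← hr, hT, hN]
    push_cast
    ring
  · rw [← hr]
    have : x * 3 ^ q = 2 ^ K * (2 ^ (α + φ * s) * n) - d * E := by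
      rw [mul_comm, hx3, hN]
      push_cast
      ring
    rw [this]
    exact Int.modEq_iff_dvd.mpr ⟨E, by ring⟩

end Pool.Agent.H284R3.RD
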