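import Mathlib
import Pool.Agent.H284R3.RD.Core
import Pool.Agent.H284R3.RD.Blocks
import Pool.Agent.H284R3.RD.Target

set_option autoImplicit false

namespace Pool.Agent.H284R3.RD

open Pool.Agent.Helper605.CP Pool.Agent.H397R2 Filter Topology

/-- `x` and `y` agree modulo `d` up to a factor `2^i 3^j`. -/
def Rel (d x y : ℤ) : Prop := ∃ i j : ℕ, x ≡ 2 ^ i * 3 ^ j * y [ZMOD d]

lemma Rel.rfl' (d x : ℤ) : Rel d x x := ⟨0, 0, by simp⟩

lemma Rel.trans {d x y z : ℤ} (h1 : Rel d x y) (h2 : Rel d y z) : Rel d x z := by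
  obtain ⟨i, j, h1⟩ := h1
  obtain ⟨i', j', h2⟩ := h2
  refine ⟨i + i', j + j', h1.trans ?_⟩
  have := h2.mul_left (2 ^ i * 3 ^ j)
  have e : (2 : ℤ) ^ i * 3 ^ j * (2 ^ i' * 3 ^ j' * z) = 2 ^ (i + i') * 3 ^ (j + j') * z := by
    ring
  rwa [e] at this

/-- an exponent killing `2` and `3` modulo `d` -/
lemma exists_phi {d : ℤ} (hd : d % 2 = 1) (h3 : ¬ (3 : ℤ) ∣ d) :
    ∃ φ : ℕ, 1 ≤ φ ∧ (2 : ℤ) ^ φ ≡ 1 [ZMOD d] ∧ (3 : ℤ) ^ φ ≡ 1 [ZMOD d] := by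
  have hd0 : d ≠ 0 := by rintro rfl; norm_num at hd
  have key : ∀ a : ℕ, Nat.Coprime a d.natAbs → (a : ℤ) ^ (Nat.totient d.natAbs) ≡ 1 [ZMOD d] := by
    intro a ha
    have h1 := Nat.ModEq.pow_totient ha
    have h2 : ((a ^ Nat.totient d.natAbs : ℕ) : ℤ) ≡ ((1 : ℕ) : ℤ) [ZMOD (d.natAbs : ℤ)] :=
      (Int.natCast_modEq_iff).mpr h1
    push_cast at h2
    have h5 := Int.modEq_iff_dvd.mp h2
    apply Int.modEq_iff_dvd.mpr
    rwa [abs_dvd] at h5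
  refine ⟨Nat.totient d.natAbs, Nat.totient_pos.mpr (Int.natAbs_pos.mpr hd0), ?_, ?_⟩
  · apply key 2
    rw [Nat.coprime_two_left]
    rw [Int.natAbs_odd]
    exact Int.odd_iff.mpr hd
  · apply key 3
    rw [Nat.Prime.coprime_iff_not_dvd Nat.prime_three]
    intro h
    exact h3 (Int.natCast_dvd.mpr h)

lemma Rel.symm {d : ℤ} (hd : d % 2 = 1) (h3 : ¬ (3 : ℤ) ∣ d) {x y : ℤ} (h : Rel d x y) :
    Rel d y x := by
  obtain ⟨φ, hφ, h2, h3'⟩ := exists_phi hd h3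
  obtain ⟨i, j, h⟩ := h
  refine ⟨(φ - 1) * i, (φ - 1) * j, ?_⟩
  have h4 := h.mul_left (2 ^ ((φ - 1) * i) * 3 ^ ((φ - 1) * j))
  have e1 : (2 : ℤ) ^ ((φ - 1) * i) * 3 ^ ((φ - 1) * j) * (2 ^ i * 3 ^ j * y) =
      (2 ^ φ) ^ i * (3 ^ φ) ^ j * y := by
    rw [← pow_mul, ← pow_mul]
    have e2 : φ * i = (φ - 1) * i + i := by
      obtain ⟨ψ, rfl⟩ : ∃ ψ, φ = ψ + 1 := ⟨φ - 1, by omega⟩
      simp; ring
    have e3 : φ * j = (φ - 1) * j + j := by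
      obtain ⟨ψ, rfl⟩ : ∃ ψ, φ = ψ + 1 := ⟨φ - 1, by omega⟩
      simp; ring
    rw [e2, e3, pow_add, pow_add]
    ring
  rw [e1] at h4
  have h5 : (2 ^ φ : ℤ) ^ i * (3 ^ φ) ^ j * y ≡ 1 ^ i * 1 ^ j * y [ZMOD d] :=
    ((h2.pow i).mul (h3'.pow j)).mul_right y
  have h6 := h4.trans h5
  simp only [one_pow, one_mul] at h6
  exact h6.symm

lemma rel_T {d : ℤ} (hd : d % 2 = 1) (h3 : ¬ (3 : ℤ) ∣ d) (x : ℤ) : Rel d (T d x) x := by
  -- it suffices to see `2 T x = x` or `3 x + d`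
  have h1 : Rel d (2 * T d x) x := by
    unfold T
    split_ifs with h
    · refine ⟨0, 0, ?_⟩
      have : 2 * (x / 2) = x := by omega
      rw [this, pow_zero, pow_zero, one_mul, one_mul]
    · refine ⟨0, 1, ?_⟩
      have : 2 * ((3 * x + d) / 2) = 3 * x + d := by omega
      rw [this]
      exact Int.modEq_iff_dvd.mpr ⟨-1, by ring⟩
  have h2 : Rel d (2 * T d x) (T d x) := ⟨1, 0, by simp⟩
  exact (h2.symm hd h3).trans h1

variable {α : Type*}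

/-- Both sides of the congruence class argument, for integers prime to `3`. -/
lemma eq_of_blocks {d : ℤ} (hd : d % 2 = 1) (h3 : ¬ (3 : ℤ) ∣ d) {c : ℤ → α}
    (h : ∀ x, c (T d x) = c x) {m : ℕ}
    (hm : ∀ k r : ℕ, r + d.natAbs < 2 ^ k →
      c ((r + 2 ^ k * m : ℕ) : ℤ) = c ((r + d.natAbs + 2 ^ k * m : ℕ) : ℤ))
    {n n' : ℕ} (hn : 1 ≤ n) (hn3 : ¬ 3 ∣ n) (hn' : 1 ≤ n') (hn3' : ¬ 3 ∣ n')
    (hrel : Rel d n n') : c n = c n' := by
  obtain ⟨φ, hφ, hp2, hp3⟩ := exists_phi hd h3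
  obtain ⟨i, j, hij⟩ := hrel
  obtain ⟨s1, t1, K1, H1⟩ := target hd h3 φ 0 0 hφ m n hn hn3
  obtain ⟨s2, t2, K2, H2⟩ := target hd h3 φ i ((φ - 1) * j) hφ m n' hn' hn3'
  obtain ⟨r1, hr1, hT1, hc1⟩ := H1 (max K1 K2) (le_max_left _ _)
  obtain ⟨r2, hr2, hT2, hc2⟩ := H2 (max K1 K2) (le_max_right _ _)
  set K := max K1 K2 with hK
  have e1 : c ((r1 + 2 ^ K * m : ℕ) : ℤ) = c n := by
    rw [← inv_iter h K, hT1, inv_pow h]
  have e2 : c ((r2 + 2 ^ K * m : ℕ) : ℤ) = c n' := by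
    rw [← inv_iter h K, hT2, inv_pow h]
  rw [← e1, ← e2]
  -- the two residues agree
  have c1 : ((r1 + 2 ^ K * m : ℕ) : ℤ) ≡ 2 ^ K * n [ZMOD d] := by
    have h5 : ((r1 + 2 ^ K * m : ℕ) : ℤ) * 3 ^ (0 + φ * t1) ≡ ((r1 + 2 ^ K * m : ℕ) : ℤ) [ZMOD d] := by
      rw [zero_add, pow_mul]
      have := (hp3.pow t1).mul_left ((r1 + 2 ^ K * m : ℕ) : ℤ)
      simpa using this
    have h6 : (2 : ℤ) ^ K * (2 ^ (0 + φ * s1) * n) ≡ 2 ^ K * n [ZMOD d] := by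
      rw [zero_add, pow_mul]
      have := ((hp2.pow s1).mul_right (n : ℤ)).mul_left (2 ^ K)
      simpa using this
    exact h5.symm.trans (hc1.trans h6)
  have c2 : ((r2 + 2 ^ K * m : ℕ) : ℤ) ≡ 2 ^ K * n [ZMOD d] := by
    have h5 : ((r2 + 2 ^ K * m : ℕ) : ℤ) * 3 ^ ((φ - 1) * j + φ * t2) * 3 ^ j ≡
        ((r2 + 2 ^ K * m : ℕ) : ℤ) [ZMOD d] := by
      have e : ((r2 + 2 ^ K * m : ℕ) : ℤ) * 3 ^ ((φ - 1) * j + φ * t2) * 3 ^ j =
          ((r2 + 2 ^ K * m : ℕ) : ℤ) * (3 ^ φ) ^ (t2 + j) := by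
        rw [← pow_mul, mul_assoc, ← pow_add]
        congr 2
        obtain ⟨ψ, rfl⟩ : ∃ ψ, φ = ψ + 1 := ⟨φ - 1, by omega⟩
        simp; ring
      rw [e]
      have := (hp3.pow (t2 + j)).mul_left ((r2 + 2 ^ K * m : ℕ) : ℤ)
      simpa using this
    have h6 : (2 : ℤ) ^ K * (2 ^ (i + φ * s2) * n') * 3 ^ j ≡ 2 ^ K * n [ZMOD d] := by
      have e : (2 : ℤ) ^ K * (2 ^ (i + φ * s2) * n') * 3 ^ j =
          (2 ^ φ) ^ s2 * (2 ^ K * (2 ^ i * 3 ^ j * n')) := by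
        rw [← pow_mul, pow_add]; ring
      rw [e]
      have h7 := (hp2.pow s2).mul (hij.symm.mul_left (2 ^ K))
      simpa using h7
    exact h5.symm.trans ((hc2.mul_right (3 ^ j)).trans h6)
  have c3 : r1 ≡ r2 [MOD d.natAbs] := by
    have h7 := c1.trans c2.symm
    rw [← Int.natCast_modEq_iff, Int.modEq_iff_dvd, Int.natAbs_dvd]
    have h8 := Int.modEq_iff_dvd.mp h7
    push_cast at h8
    have e : ((r2 : ℤ) + 2 ^ K * m - (r1 + 2 ^ K * m)) = (r2 : ℤ) - r1 := by ring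
    rw [e] at h8
    exact h8
  -- walking along the block
  have hwalk : ∀ t r : ℕ, r + t * d.natAbs < 2 ^ K →
      c ((r + 2 ^ K * m : ℕ) : ℤ) = c ((r + t * d.natAbs + 2 ^ K * m : ℕ) : ℤ) := by
    intro t
    induction t with
    | zero => intro r _; simp
    | succ t ih =>
      intro r hr
      have hr2 : r + t * d.natAbs + d.natAbs < 2 ^ K := by
        have e : r + (t + 1) * d.natAbs = r + t * d.natAbs + d.natAbs := by ring
        rwa [e] at hr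
      rw [ih r (by omega), show r + (t + 1) * d.natAbs = (r + t * d.natAbs) + d.natAbs by ring]
      exact hm K _ hr2
  have hgen : ∀ a b : ℕ, a ≤ b → b < 2 ^ K → a ≡ b [MOD d.natAbs] →
      c ((a + 2 ^ K * m : ℕ) : ℤ) = c ((b + 2 ^ K * m : ℕ) : ℤ) := by
    intro a b hab hb hmod
    obtain ⟨t, ht⟩ := (Nat.modEq_iff_dvd' hab).mp hmod
    have hb' : b = a + t * d.natAbs := by rw [mul_comm] at ht; omega
    rw [hb'] at hb ⊢
    exact hwalk t a hb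
  rcases le_total r1 r2 with h9 | h9
  · exact hgen _ _ h9 hr2 c3
  · exact (hgen _ _ h9 hr1 c3.symm).symm

/-- The theorem for positive integers prime to `3`, any sign of `d`. -/
theorem pos_coprime {R M : Type*} [Ring R] [IsNoetherianRing R] [AddCommGroup M]
    [Module R M] {d : ℤ} (hd : d % 2 = 1) (h3 : ¬ (3 : ℤ) ∣ d) {c : ℤ → M}
    (h : ∀ x, c (T d x) = c x) {k : ℕ} (hk : 2 ≤ k)
    (hfin : (Submodule.span R (kernel k (fun n : ℕ => c n))).FG)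
    {n n' : ℕ} (hn : 1 ≤ n) (hn3 : ¬ 3 ∣ n) (hn' : 1 ≤ n') (hn3' : ¬ 3 ∣ n')
    (hrel : Rel d n n') : c n = c n' := by
  have hd0 : d ≠ 0 := by rintro rfl; norm_num at hd
  have hD : 1 ≤ d.natAbs := Int.natAbs_pos.mpr hd0
  have hzd : ZD {n : ℕ | (fun n : ℕ => c n) n ≠ (fun n : ℕ => c n) (n + d.natAbs)} := by
    rcases Int.natAbs_eq d with h5 | h5
    · have := zd hd h 0
      have e : {n : ℕ | c ((n : ℤ) + 0) ≠ c (n + 0 + d)} =
          {n : ℕ | (fun n : ℕ => c n) n ≠ (fun n : ℕ => c n) (n + d.natAbs)} := by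
        ext n
        show c ((n : ℤ) + 0) ≠ c (n + 0 + d) ↔ c (n : ℤ) ≠ c ((n + d.natAbs : ℕ) : ℤ)
        rw [add_zero]
        push_cast
        rw [Int.natCast_natAbs] at h5
        rw [← h5]
      rw [e] at this
      exact this
    · have := zd hd h (-d)
      have e : {n : ℕ | c ((n : ℤ) + -d) ≠ c (n + -d + d)} =
          {n : ℕ | (fun n : ℕ => c n) n ≠ (fun n : ℕ => c n) (n + d.natAbs)} := by
        ext n
        show c ((n : ℤ) + -d) ≠ c (n + -d + d) ↔ c (n : ℤ) ≠ c ((n + d.natAbs : ℕ) : ℤ)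
        rw [neg_add_cancel_right]
        push_cast
        rw [Int.natCast_natAbs] at h5
        have h6 : |d| = -d := by omega
        rw [h6]
        exact ne_comm
      rw [e] at this
      exact this
  obtain ⟨m, hm1, hm⟩ := dyadic_of_regular (c := fun n : ℕ => c n) hD (fun n => by
    have := inv_two h (n : ℤ)
    push_cast
    exact this) hzd hk hfin
  exact eq_of_blocks hd h3 h hm hn hn3 hn' hn3' hrel

end Pool.Agent.H284R3.RD
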