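import Mathlib
import Pool.Agent.H284R3.RD.Main

set_option autoImplicit false

namespace Pool.Agent.H284R3.RD.BoundaryEverywhere

/-- the `3x+k` map on the integers -/
def T (k x : ℤ) : ℤ := if x % 2 = 0 then x / 2 else (3 * x + k) / 2

/-- `a` and `b` agree modulo `k` up to a factor `2 ^ i * 3 ^ j`. -/
def Rel (k a b : ℤ) : Prop := ∃ i j : ℕ, a ≡ 2 ^ i * 3 ^ j * b [ZMOD k]

lemma T_side {k : ℤ} (hk : k % 2 = 1) {s : ℤ} (hs : s = 1 ∨ s = -1) (x : ℤ) :
    s * T (s * k) x = T k (s * x) := by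
  rcases hs with rfl | rfl
  · simp
  · unfold T
    by_cases h : x % 2 = 0
    · rw [if_pos h, if_pos (by omega)]; omega
    · rw [if_neg h, if_neg (by omega)]; omega

/-- Let `k` be congruent to `1` or `5` mod `6`, `s = 1` or `s = -1`, and let `A` be a set of integers
with `x ∈ A ↔ T x ∈ A` for all `x`.  Either membership in `A`, for the integers of sign `s` prime to
`3`, depends only on the residue modulo `k` up to factors `2^i 3^j`; or for every `δ > 0` and all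
large `x` some integer `n` of sign `s` with `x ≤ |n| ≤ (1 + δ) x` has the property that exactly one of
`n`, `n + k` lies in `A`. -/
theorem result (k : ℤ) (hk : k % 6 = 1 ∨ k % 6 = 5) (s : ℤ) (hs : s = 1 ∨ s = -1) (A : Set ℤ)
    (hA : ∀ x, x ∈ A ↔ T k x ∈ A) :
    (∀ x y : ℤ, 0 < s * x → 0 < s * y → ¬ (3 : ℤ) ∣ x → ¬ (3 : ℤ) ∣ y → Rel k x y →
      (x ∈ A ↔ y ∈ A)) ∨
    (∀ δ : ℝ, 0 < δ → ∃ X : ℝ, ∀ x : ℝ, X ≤ x → ∃ n : ℤ, x ≤ ((s * n : ℤ) : ℝ) ∧
      ((s * n : ℤ) : ℝ) ≤ (1 + δ) * x ∧ ¬ (n ∈ A ↔ n + k ∈ A)) := by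
  by_cases hsec : ∀ δ : ℝ, 0 < δ → ∃ X : ℝ, ∀ x : ℝ, X ≤ x → ∃ n : ℤ, x ≤ ((s * n : ℤ) : ℝ) ∧
      ((s * n : ℤ) : ℝ) ≤ (1 + δ) * x ∧ ¬ (n ∈ A ↔ n + k ∈ A)
  · exact Or.inr hsec
  left
  push Not at hsec
  obtain ⟨δ, hδ, hrun⟩ := hsec
  have hk2 : k % 2 = 1 := by omega
  have hk3 : ¬ (3 : ℤ) ∣ k := by omega
  have hss : s * s = 1 := by rcases hs with rfl | rfl <;> norm_num
  have hd : (s * k) % 2 = 1 := by rcases hs with rfl | rfl <;> omega
  have hd3 : ¬ (3 : ℤ) ∣ s * k := by rcases hs with rfl | rfl <;> omega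
  have hnat : (s * k).natAbs = k.natAbs := by
    rw [Int.natAbs_mul]; rcases hs with rfl | rfl <;> simp
  set D := k.natAbs with hD
  have hD1 : 1 ≤ D := Int.natAbs_pos.mpr (by omega)
  set c : ℤ → Prop := fun x => s * x ∈ A with hc
  have hinv : ∀ x, c (Pool.Agent.H284R3.RD.T (s * k) x) = c x := by
    intro x
    apply propext
    show s * T (s * k) x ∈ A ↔ s * x ∈ A
    rw [T_side hk2 hs, ← hA]
  obtain ⟨m0, hm0⟩ := exists_nat_gt (2 / δ)
  have hm0pos : 1 ≤ m0 := by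
    rcases Nat.eq_zero_or_pos m0 with h0 | h0
    · rw [h0] at hm0
      have : (0 : ℝ) < 2 / δ := by positivity
      push_cast at hm0
      linarith
    · exact h0
  have hm0r : (1 : ℝ) ≤ m0 := by exact_mod_cast hm0pos
  have hdm : 2 < δ * m0 := by
    rw [div_lt_iff₀ hδ] at hm0; linarith
  obtain ⟨m, _, hm⟩ := Pool.Agent.H284R3.RD.dyadic (c := fun n : ℕ => c n) hD1 (fun n => by
      have := Pool.Agent.H284R3.RD.inv_two hinv (n : ℤ)
      push_cast
      exact this) hm0pos (fun X => by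
    obtain ⟨x, hx, hxr⟩ := hrun (max (X : ℝ) (2 * m0 + 2))
    have hx1 : (X : ℝ) ≤ x := le_trans (le_max_left _ _) hx
    have hx2 : (2 * m0 + 2 : ℝ) ≤ x := le_trans (le_max_right _ _) hx
    have hx0 : 0 ≤ x := by linarith
    refine ⟨⌈x⌉₊, ?_, fun y hy1 hy2 => ?_⟩
    · have : (X : ℝ) ≤ (⌈x⌉₊ : ℝ) := hx1.trans (Nat.le_ceil x)
      exact_mod_cast this
    · -- both `y` and `y + D` lie in the interval
      have h1 : x ≤ (y : ℝ) := (Nat.le_ceil x).trans (by exact_mod_cast hy1)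
      have h2 : (m0 : ℝ) * ((y : ℝ) + D) < (m0 + 1) * (⌈x⌉₊ : ℝ) := by exact_mod_cast hy2
      have h3 : (⌈x⌉₊ : ℝ) < x + 1 := Nat.ceil_lt_add_one hx0
      have h4 : (m0 : ℝ) * ((y : ℝ) + D) ≤ m0 * ((1 + δ) * x) := by
        have h5 : ((m0 : ℝ) + 1) * (⌈x⌉₊ : ℝ) ≤ (m0 + 1) * (x + 1) :=
          mul_le_mul_of_nonneg_left h3.le (by linarith)
        nlinarith
      have h6 : (y : ℝ) + D ≤ (1 + δ) * x := le_of_mul_le_mul_left h4 (by linarith)
      have hDnn : (0 : ℝ) ≤ D := Nat.cast_nonneg D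
      apply propext
      show s * (y : ℤ) ∈ A ↔ s * ((y + D : ℕ) : ℤ) ∈ A
      have hsy : ∀ z : ℤ, s * (s * z) = z := fun z => by rw [← mul_assoc, hss, one_mul]
      rcases Int.natAbs_eq (s * k) with h7 | h7
      · rw [hnat] at h7
        have h8 := hxr (s * (y : ℤ)) (by rw [hsy]; push_cast; exact h1)
          (by rw [hsy]; push_cast; linarith)
        have h9 : s * (y : ℤ) + k = s * ((y + D : ℕ) : ℤ) := by
          push_cast
          have : s * (D : ℤ) = k := by rw [← h7, hsy]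
          rw [mul_add, this]
        rwa [h9] at h8
      · rw [hnat] at h7
        have h8 := hxr (s * ((y + D : ℕ) : ℤ)) (by rw [hsy]; push_cast; linarith)
          (by rw [hsy]; push_cast; linarith)
        have h9 : s * ((y + D : ℕ) : ℤ) + k = s * (y : ℤ) := by
          push_cast
          have : s * (D : ℤ) = -k := by
            have h10 : (D : ℤ) = -(s * k) := by rw [h7]; ring
            rw [h10, mul_neg, hsy]
          rw [mul_add, this]; ring
        rw [h9] at h8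
        exact h8.symm)
  intro x y hx hy hx3 hy3 hrel
  obtain ⟨n, hn⟩ : ∃ n : ℕ, s * x = n := ⟨(s * x).toNat, (Int.toNat_of_nonneg hx.le).symm⟩
  obtain ⟨n', hn'⟩ : ∃ n : ℕ, s * y = n := ⟨(s * y).toNat, (Int.toNat_of_nonneg hy.le).symm⟩
  have hsy : ∀ z : ℤ, s * (s * z) = z := fun z => by rw [← mul_assoc, hss, one_mul]
  have e1 : x = s * (n : ℤ) := by rw [← hn, hsy]
  have e2 : y = s * (n' : ℤ) := by rw [← hn', hsy]
  have h3n : ∀ z : ℤ, ∀ w : ℕ, s * z = w → ¬ (3 : ℤ) ∣ z → ¬ 3 ∣ w := by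
    intro z w hw hz h3
    apply hz
    have : z = s * (w : ℤ) := by rw [← hw, hsy]
    rw [this]
    exact Dvd.dvd.mul_left (by exact_mod_cast h3) s
  have hmain := Pool.Agent.H284R3.RD.eq_of_blocks hd hd3 (c := c) hinv (m := m) (by
      intro K r hr
      rw [hnat] at hr ⊢
      exact hm K r hr) (n := n) (n' := n') (by omega) (h3n x n hn hx3) (by omega)
      (h3n y n' hn' hy3) (by
      obtain ⟨i, j, hij⟩ := hrel
      refine ⟨i, j, ?_⟩
      have h5 := hij.mul_left s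
      rw [hn] at h5
      have h6 : s * (2 ^ i * 3 ^ j * y) = 2 ^ i * 3 ^ j * (n' : ℤ) := by rw [← hn']; ring
      rw [h6] at h5
      have h7 : s * k ∣ k ∧ k ∣ s * k := by
        rcases hs with rfl | rfl
        · simp
        · simp
      exact h5.of_dvd h7.1)
  rw [e1, e2]
  exact iff_of_eq hmain

end Pool.Agent.H284R3.RD.BoundaryEverywhere
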