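import Mathlib
import Pool.Agent.H284R3.RD.Main

set_option autoImplicit false

namespace Pool.Agent.H284R3.RD

open Pool.Agent.Helper605.CP Pool.Agent.H397R2 Filter Topology

lemma T_neg {d : ℤ} (hd : d % 2 = 1) (x : ℤ) : T (-d) (-x) = - T d x := by
  unfold T
  by_cases h : x % 2 = 0
  · rw [if_pos h, if_pos (by omega)]; omega
  · rw [if_neg h, if_neg (by omega)]; omega

lemma rel_neg {d x y : ℤ} (h : Rel d x y) : Rel (-d) (-x) (-y) := by
  obtain ⟨i, j, h⟩ := h
  refine ⟨i, j, ?_⟩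
  rw [Int.modEq_iff_dvd] at h ⊢
  obtain ⟨w, hw⟩ := h
  exact ⟨w, by linear_combination -hw⟩

section

variable {R M : Type*} [Ring R] [IsNoetherianRing R] [AddCommGroup M] [Module R M]

/-- The positive side for `d > 0`. -/
theorem pos_all {d : ℤ} (hd : d % 2 = 1) (h3 : ¬ (3 : ℤ) ∣ d) (hpos : 0 < d) {c : ℤ → M}
    (h : ∀ x, c (T d x) = c x) {k : ℕ} (hk : 2 ≤ k)
    (hfin : (Submodule.span R (kernel k (fun n : ℕ => c n))).FG)
    {x y : ℤ} (hx : 0 < x) (hy : 0 < y) (hrel : Rel d x y) : c x = c y := by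
  have key : ∀ N : ℕ, ∀ x : ℤ, 0 < x → x ≤ N → ∃ n : ℕ, 1 ≤ n ∧ ¬ 3 ∣ n ∧ c n = c x ∧
      Rel d n x := by
    intro N
    induction N with
    | zero => intro x h1 h2; push_cast at h2; omega
    | succ N ih =>
      intro x h1 h2
      by_cases h5 : (3 : ℤ) ∣ x
      · rcases Int.even_or_odd' x with ⟨t, rfl | rfl⟩
        · obtain ⟨n, hn1, hn2, hn3, hn4⟩ := ih t (by omega) (by push_cast at h2; omega)
          exact ⟨n, hn1, hn2, by rw [hn3, inv_two h], hn4.trans (Rel.symm hd h3 ⟨1, 0, by simp⟩)⟩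
        · have e : T d (2 * t + 1) = (3 * (2 * t + 1) + d) / 2 := by
            unfold T; rw [if_neg (by omega)]
          have hr := rel_T hd h3 (2 * t + 1)
          have hc := h (2 * t + 1)
          obtain ⟨n, hn⟩ : ∃ n : ℕ, T d (2 * t + 1) = n :=
            ⟨(T d (2 * t + 1)).toNat, (Int.toNat_of_nonneg (by rw [e]; omega)).symm⟩
          rw [hn] at hr hc
          refine ⟨n, ?_, ?_, hc, hr⟩
          · omega
          · intro h6
            apply h3
            omega
      · obtain ⟨n, rfl⟩ : ∃ n : ℕ, x = n := ⟨x.toNat, (Int.toNat_of_nonneg h1.le).symm⟩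
        exact ⟨n, by omega, fun h6 => h5 (by exact_mod_cast h6), rfl, Rel.rfl' _ _⟩
  obtain ⟨n, hn1, hn2, hn3, hn4⟩ := key x.toNat x hx (by omega)
  obtain ⟨n', hn1', hn2', hn3', hn4'⟩ := key y.toNat y hy (by omega)
  rw [← hn3, ← hn3']
  exact pos_coprime hd h3 h hk hfin hn1 hn2 hn1' hn2'
    ((hn4.trans hrel).trans (hn4'.symm hd h3))

/-- The negative side for `d < 0`. -/
theorem neg_all {d : ℤ} (hd : d % 2 = 1) (h3 : ¬ (3 : ℤ) ∣ d) (hneg : d < 0) {c : ℤ → M}
    (h : ∀ x, c (T d x) = c x) {k : ℕ} (hk : 2 ≤ k)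
    (hfin : (Submodule.span R (kernel k (fun n : ℕ => c (-n)))).FG)
    {x y : ℤ} (hx : x < 0) (hy : y < 0) (hrel : Rel d x y) : c x = c y := by
  have h1 : ∀ x, (fun x => c (-x)) (T (-d) x) = (fun x => c (-x)) x := by
    intro x
    show c (-(T (-d) x)) = c (-x)
    have := T_neg hd (-x)
    rw [neg_neg] at this
    rw [this, neg_neg, h]
  have h2 := pos_all (d := -d) (by omega) (by rwa [dvd_neg]) (by omega)
    (c := fun x => c (-x)) h1 hk hfin (x := -x) (y := -y) (by omega) (by omega) (rel_neg hrel)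
  simpa using h2

/-- The positive side for `d < 0`, using both sides. -/
theorem pos_of_neg {d : ℤ} (hd : d % 2 = 1) (h3 : ¬ (3 : ℤ) ∣ d) (hneg : d < 0) {c : ℤ → M}
    (h : ∀ x, c (T d x) = c x) {k : ℕ} (hk : 2 ≤ k)
    (hfin : (Submodule.span R (kernel k (fun n : ℕ => c n))).FG)
    {k' : ℕ} (hk' : 2 ≤ k')
    (hfin' : (Submodule.span R (kernel k' (fun n : ℕ => c (-n)))).FG)
    {x y : ℤ} (hx : 0 < x) (hy : 0 < y) (hrel : Rel d x y) : c x = c y := by
  have key : ∀ N : ℕ, ∀ x : ℤ, 0 < x → x ≤ N → ∃ n : ℕ, 1 ≤ n ∧ ¬ 3 ∣ n ∧ c n = c x ∧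
      Rel d n x := by
    intro N
    induction N with
    | zero => intro x h1 h2; push_cast at h2; omega
    | succ N ih =>
      intro x h1 h2
      push_cast at h2
      by_cases h5 : (3 : ℤ) ∣ x
      · rcases Int.even_or_odd' x with ⟨t, rfl | rfl⟩
        · obtain ⟨n, hn1, hn2, hn3, hn4⟩ := ih t (by omega) (by omega)
          exact ⟨n, hn1, hn2, by rw [hn3, inv_two h], hn4.trans (Rel.symm hd h3 ⟨1, 0, by simp⟩)⟩
        · have e : T d (2 * t + 1) = (3 * (2 * t + 1) + d) / 2 := by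
            unfold T; rw [if_neg (by omega)]
          have hr := rel_T hd h3 (2 * t + 1)
          have hc := h (2 * t + 1)
          by_cases hp : 0 < 3 * (2 * t + 1) + d
          · obtain ⟨n, hn⟩ : ∃ n : ℕ, T d (2 * t + 1) = n :=
              ⟨(T d (2 * t + 1)).toNat, (Int.toNat_of_nonneg (by rw [e]; omega)).symm⟩
            rw [hn] at hr hc
            refine ⟨n, ?_, ?_, hc, hr⟩
            · omega
            · intro h6
              apply h3
              omega
          · obtain ⟨w, hw⟩ := h5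
            have e' : T d w = (3 * w + d) / 2 := by
              unfold T; rw [if_neg (by omega)]
            have hr' := rel_T hd h3 w
            have hc' := h w
            have hww : Rel d (2 * t + 1) w := ⟨0, 1, by rw [hw]; simp⟩
            have hcc : c (T d (2 * t + 1)) = c (T d w) :=
              neg_all hd h3 hneg h hk' hfin' (by rw [e]; omega) (by rw [e']; omega)
                ((hr.trans hww).trans (hr'.symm hd h3))
            obtain ⟨n, hn1, hn2, hn3, hn4⟩ := ih w (by omega) (by omega)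
            refine ⟨n, hn1, hn2, ?_, hn4.trans (hww.symm hd h3)⟩
            rw [hn3, ← hc', ← hcc, hc]
      · obtain ⟨n, rfl⟩ : ∃ n : ℕ, x = n := ⟨x.toNat, (Int.toNat_of_nonneg h1.le).symm⟩
        exact ⟨n, by omega, fun h6 => h5 (by exact_mod_cast h6), rfl, Rel.rfl' _ _⟩
  obtain ⟨n, hn1, hn2, hn3, hn4⟩ := key x.toNat x hx (by omega)
  obtain ⟨n', hn1', hn2', hn3', hn4'⟩ := key y.toNat y hy (by omega)
  rw [← hn3, ← hn3']
  exact pos_coprime hd h3 h hk hfin hn1 hn2 hn1' hn2'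
    ((hn4.trans hrel).trans (hn4'.symm hd h3))

/-- **Main theorem.** -/
theorem two_sided {d : ℤ} (hd : d % 2 = 1) (h3 : ¬ (3 : ℤ) ∣ d) {c : ℤ → M}
    (h : ∀ x, c (T d x) = c x) {k : ℕ} (hk : 2 ≤ k)
    (hfin : (Submodule.span R (kernel k (fun n : ℕ => c n))).FG)
    {k' : ℕ} (hk' : 2 ≤ k')
    (hfin' : (Submodule.span R (kernel k' (fun n : ℕ => c (-n)))).FG)
    {x y : ℤ} (hxy : (0 < x ∧ 0 < y) ∨ (x < 0 ∧ y < 0)) (hrel : Rel d x y) : c x = c y := by
  have hd0 : d ≠ 0 := by rintro rfl; norm_num at hd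
  rcases lt_or_gt_of_ne hd0 with hneg | hpos
  · rcases hxy with ⟨hx, hy⟩ | ⟨hx, hy⟩
    · exact pos_of_neg hd h3 hneg h hk hfin hk' hfin' hx hy hrel
    · exact neg_all hd h3 hneg h hk' hfin' hx hy hrel
  · rcases hxy with ⟨hx, hy⟩ | ⟨hx, hy⟩
    · exact pos_all hd h3 hpos h hk hfin hx hy hrel
    · have h1 : ∀ x, (fun x => c (-x)) (T (-d) x) = (fun x => c (-x)) x := by
        intro x
        show c (-(T (-d) x)) = c (-x)
        have := T_neg hd (-x)
        rw [neg_neg] at this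
        rw [this, neg_neg, h]
      have hfin2 : (Submodule.span R (kernel k (fun n : ℕ => (fun x => c (-x)) (-(n : ℤ))))).FG := by
        simpa using hfin
      have h2 := pos_of_neg (d := -d) (by omega) (by rwa [dvd_neg]) (by omega)
        (c := fun x => c (-x)) h1 hk' hfin' hk hfin2 (x := -x) (y := -y) (by omega) (by omega)
        (rel_neg hrel)
      simpa using h2

end

end Pool.Agent.H284R3.RD
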