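import Mathlib
import Pool.Agent.H284R3.RD.Core
import Pool.Agent.H284R3.RD.Target

set_option autoImplicit false

namespace Pool.Agent.H284R3.RD

open Pool.Agent.Helper605.CP Pool.Agent.H397R2 Filter Topology

lemma reach_odd_two (s : ℕ) (hs : s < 9) (h3 : ¬ 3 ∣ s) (k : ℕ) (hk : 7 ≤ k) :
    ∃ r, r < 2 ^ k ∧ r % 2 = 1 ∧ orb k r = (2, s) := by
  have key : ∀ b, 1 ≤ b → b ≤ 6 → (2 ^ k * s) % 9 = (2 ^ b + 3) % 9 →
      ∃ r, r < 2 ^ k ∧ r % 2 = 1 ∧ orb k r = (2, s) := by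
    intro b hb1 hb6 hb
    obtain ⟨j, rfl⟩ : ∃ j, k = b + 1 + j := ⟨k - b - 1, by omega⟩
    set X := 2 ^ (j + 1) * s with hX
    have hkX : 2 ^ (b + 1 + j) * s = 2 ^ b * X := by
      rw [hX]; rw [pow_add, pow_add, pow_add]; ring
    have hXe : X % 2 = 0 := by
      rw [hX, pow_succ]
      have : 2 ^ j * 2 * s = 2 * (2 ^ j * s) := by ring
      rw [this]; omega
    rw [hkX] at hb
    obtain ⟨ρ, hρ⟩ : ∃ ρ, X = 3 * ρ + 1 := by
      refine ⟨X / 3, ?_⟩
      interval_cases b <;> norm_num at hb <;> omega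
    obtain ⟨r, hr⟩ : ∃ r, 2 ^ b * ρ = 3 * r + 1 := by
      refine ⟨2 ^ b * ρ / 3, ?_⟩
      rw [hρ] at hb
      interval_cases b <;> norm_num at hb ⊢ <;> omega
    have hρo : ρ % 2 = 1 := by omega
    have hro : r % 2 = 1 := by
      obtain ⟨b', rfl⟩ : ∃ b', b = b' + 1 := ⟨b - 1, by omega⟩
      rw [pow_succ] at hr
      have : 2 ^ b' * 2 * ρ = 2 * (2 ^ b' * ρ) := by ring
      rw [this] at hr
      omega
    have hbd : 9 * r + 3 + 2 ^ b = 2 ^ (b + 1 + j) * s := by
      rw [hkX, hρ, mul_add, mul_one]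
      have : 2 ^ b * (3 * ρ) = 3 * (2 ^ b * ρ) := by ring
      rw [this, hr]; ring
    refine ⟨r, ?_, hro, ?_⟩
    · have : 2 ^ (b + 1 + j) * s ≤ 2 ^ (b + 1 + j) * 8 := Nat.mul_le_mul_left _ (by omega)
      have h0 : 0 < 2 ^ (b + 1 + j) := by positivity
      have h1 : 0 < 2 ^ b := by positivity
      clear hb
      generalize 2 ^ (b + 1 + j) * s = u at *
      generalize 2 ^ (b + 1 + j) = v at *
      generalize 2 ^ b = w at *
      have h2 : 9 * r < 9 * v := by linarith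
      linarith
    · have e1 : orb 1 r = (1, 2 ^ (b - 1) * ρ) := by
        have : orb 1 r = st1 0 (orb 0 r) := orb_succ 0 r
        rw [this, orb_zero]
        simp only [st1, mul_zero, zero_add]
        rw [if_neg (by omega)]
        have hb' : 2 ^ b * ρ = 2 * (2 ^ (b - 1) * ρ) := by
          obtain ⟨b', rfl⟩ : ∃ b', b = b' + 1 := ⟨b - 1, by omega⟩
          rw [pow_succ]; simp; ring
        ext
        · rfl
        · simp only; omega
      have e2 : orb (1 + (b - 1)) r = (1, ρ) := orb_halve 1 r 1 ρ (b - 1) e1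
      have e3 : orb (b + 1) r = (2, 2 ^ j * s) := by
        rw [orb_succ, show b = 1 + (b - 1) by omega, e2]
        simp only [st1, mul_zero, zero_add]
        rw [if_neg (by omega)]
        ext
        · rfl
        · simp only
          rw [← hρ, hX, pow_succ]
          have : 2 ^ j * 2 * s = 2 * (2 ^ j * s) := by ring
          rw [this]; omega
      exact orb_halve (b + 1) r 2 s j e3
  have h9 : (2 ^ k * s) % 9 = 1 ∨ (2 ^ k * s) % 9 = 2 ∨ (2 ^ k * s) % 9 = 4 ∨
      (2 ^ k * s) % 9 = 5 ∨ (2 ^ k * s) % 9 = 7 ∨ (2 ^ k * s) % 9 = 8 := by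
    have : ¬ 3 ∣ 2 ^ k * s := by
      intro h
      rcases (Nat.Prime.dvd_mul Nat.prime_three).mp h with h6 | h6
      · have := Nat.Prime.dvd_of_dvd_pow Nat.prime_three h6
        omega
      · exact h3 h6
    omega
  rcases h9 with h | h | h | h | h | h
  · exact key 4 (by norm_num) (by norm_num) (by rw [h]; norm_num)
  · exact key 3 (by norm_num) (by norm_num) (by rw [h]; norm_num)
  · exact key 6 (by norm_num) (by norm_num) (by rw [h]; norm_num)
  · exact key 1 (by norm_num) (by norm_num) (by rw [h]; norm_num)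
  · exact key 2 (by norm_num) (by norm_num) (by rw [h]; norm_num)
  · exact key 5 (by norm_num) (by norm_num) (by rw [h]; norm_num)

lemma reach_odd (q : ℕ) (hq2 : 2 ≤ q) : ∀ s : ℕ, s < 3 ^ q → ¬ 3 ∣ s →
    ∃ K0 : ℕ, ∀ k, K0 ≤ k → ∃ r, r < 2 ^ k ∧ r % 2 = 1 ∧ orb k r = (q, s) := by
  induction q, hq2 using Nat.le_induction with
  | base =>
    intro s hs h3
    exact ⟨7, fun k hk => reach_odd_two s (by simpa using hs) h3 k hk⟩
  | succ q hq2 ih =>
    intro s hsq hs3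
    obtain ⟨e, he1, he6, he⟩ : ∃ e, 1 ≤ e ∧ e ≤ 6 ∧ (2 ^ e * s) % 9 = 4 := by
      have h9 : s % 9 = 1 ∨ s % 9 = 2 ∨ s % 9 = 4 ∨ s % 9 = 5 ∨ s % 9 = 7 ∨ s % 9 = 8 := by omega
      rcases h9 with h | h | h | h | h | h
      · exact ⟨2, by norm_num, by norm_num, by norm_num; omega⟩
      · exact ⟨1, by norm_num, by norm_num, by norm_num; omega⟩
      · exact ⟨6, by norm_num, by norm_num, by norm_num; omega⟩
      · exact ⟨3, by norm_num, by norm_num, by norm_num; omega⟩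
      · exact ⟨4, by norm_num, by norm_num, by norm_num; omega⟩
      · exact ⟨5, by norm_num, by norm_num, by norm_num; omega⟩
    obtain ⟨a, ha⟩ : ∃ a, 2 ^ e * s = 9 * a + 4 := ⟨2 ^ e * s / 9, by omega⟩
    set σ := 3 * a + 1 with hσ
    have h3σ : 3 * σ + 1 = 2 ^ e * s := by omega
    have hσlt : σ < 2 ^ e * 3 ^ q := by
      have h1 : 2 ^ e * s < 2 ^ e * 3 ^ (q + 1) := Nat.mul_lt_mul_of_pos_left hsq (by positivity)
      rw [pow_succ, ← mul_assoc] at h1
      omega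
    obtain ⟨t, s', hts, hs'⟩ : ∃ t s', σ = 3 ^ q * t + s' ∧ s' < 3 ^ q :=
      ⟨σ / 3 ^ q, σ % 3 ^ q, (Nat.div_add_mod _ _).symm, Nat.mod_lt _ (by positivity)⟩
    have ht : t < 2 ^ e := by
      by_contra hcon
      push Not at hcon
      have : 3 ^ q * 2 ^ e ≤ 3 ^ q * t := Nat.mul_le_mul_left _ hcon
      rw [mul_comm] at hσlt
      omega
    have h3s' : ¬ 3 ∣ s' := by
      intro h3
      have h4 : 3 ∣ 3 ^ q * t := Dvd.dvd.mul_right (dvd_pow_self 3 (by omega)) t
      have h5 : 3 ∣ σ := by rw [hts]; exact dvd_add h4 h3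
      omega
    obtain ⟨K0, hK0⟩ := ih s' hs' h3s'
    refine ⟨K0 + 7, fun k hk => ?_⟩
    obtain ⟨k', rfl⟩ : ∃ k', k = k' + 1 + (e - 1) := ⟨k - e, by omega⟩
    obtain ⟨r', hr', hodd, horb⟩ := hK0 k' (by omega)
    refine ⟨r' + 2 ^ k' * t, ?_, ?_, ?_⟩
    · have h1 : 2 ^ (k' + 1 + (e - 1)) = 2 ^ k' * 2 ^ e := by
        rw [← pow_add]; congr 1; omega
      rw [h1]
      have h2 : 2 ^ k' * (t + 1) ≤ 2 ^ k' * 2 ^ e := Nat.mul_le_mul_left _ ht
      rw [mul_add, mul_one] at h2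
      omega
    · obtain ⟨k'', rfl⟩ : ∃ k'', k' = k'' + 1 := ⟨k' - 1, by omega⟩
      rw [pow_succ]
      have : 2 ^ k'' * 2 * t = 2 * (2 ^ k'' * t) := by ring
      rw [this]; omega
    · have h1 : orb k' (r' + 2 ^ k' * t) = (q, σ) := by
        rw [orb_add, horb, hts]
        ext
        · rfl
        · simp only; ring
      have h2 : orb (k' + 1) (r' + 2 ^ k' * t) = (q + 1, 2 ^ (e - 1) * s) := by
        rw [orb_succ, h1]
        simp only [st1, mul_zero, zero_add]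
        have h4 : 2 ^ e * s = 2 * (2 ^ (e - 1) * s) := by
          rw [← mul_assoc, ← pow_succ']; congr 2; omega
        have h3 : ¬ σ % 2 = 0 := by omega
        rw [if_neg h3]
        ext
        · rfl
        · simp only; omega
      exact orb_halve (k' + 1) _ (q + 1) s (e - 1) h2

end Pool.Agent.H284R3.RD
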