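import Mathlib
import Pool.Agent.H284R3.RD.Odd
import Pool.Agent.H284R3.RD.Blocks

set_option autoImplicit false

namespace Pool.Agent.H284R3.RD

open Pool.Agent.Helper605.CP Pool.Agent.H397R2 Filter Topology

lemma target_odd {d : ℤ} (hd : d % 2 = 1) (h3 : ¬ (3 : ℤ) ∣ d) (m n : ℕ)
    (hn : 1 ≤ n) (hn3 : ¬ 3 ∣ n) :
    ∃ e K0 : ℕ, ∀ K, K0 ≤ K → ∃ r : ℕ, r < 2 ^ K ∧ r % 2 = 1 ∧
      (T d)^[K] ((r + 2 ^ K * m : ℕ) : ℤ) = 2 ^ e * (n : ℤ) := by
  obtain ⟨s, t, ht, hlo, hhi⟩ := pow_between 1 0 0 (4 * d.natAbs + 2) le_rfl m n hn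
  simp only [zero_add, one_mul] at hlo hhi
  set N := 2 ^ s * n with hN
  have hqbig : 4 * d.natAbs + 2 ≤ t := ht
  have hq2 : 4 * d.natAbs < 2 ^ t := by
    have : t < 2 ^ t := Nat.lt_two_pow_self
    omega
  have hN3 : ¬ 3 ∣ N := by
    intro h
    rcases (Nat.Prime.dvd_mul Nat.prime_three).mp h with h6 | h6
    · have := Nat.Prime.dvd_of_dvd_pow Nat.prime_three h6
      omega
    · exact hn3 h6
  have hcop : IsCoprime d ((3 : ℤ) ^ t) := by
    apply IsCoprime.pow_right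
    exact ((Int.prime_three.coprime_iff_not_dvd).mpr h3).symm
  obtain ⟨u1, v1, huv⟩ := hcop
  set w : ℤ := (u1 * N) % 3 ^ t with hw
  have hw0 : 0 ≤ w := Int.emod_nonneg _ (by positivity)
  have hw1 : w < 3 ^ t := Int.emod_lt_of_pos _ (by positivity)
  obtain ⟨p, hp⟩ : ∃ y : ℕ, w = y := ⟨w.toNat, (Int.toNat_of_nonneg hw0).symm⟩
  have hplt : p < 3 ^ t := by
    rw [hp] at hw1
    exact_mod_cast hw1
  obtain ⟨z, hz⟩ : ∃ z : ℤ, (N : ℤ) = d * p + 3 ^ t * z := by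
    refine ⟨v1 * N + d * ((u1 * N) / 3 ^ t), ?_⟩
    have h3 := Int.mul_ediv_add_emod (u1 * N) (3 ^ t)
    rw [← hw, hp] at h3
    have h4 : ((p : ℤ)) = u1 * N - 3 ^ t * (u1 * N / 3 ^ t) := by linarith
    rw [h4]
    linear_combination (-(N : ℤ)) * huv
  have hp3 : ¬ 3 ∣ p := by
    intro h
    apply hN3
    have h5 : (3 : ℤ) ∣ N := by
      rw [hz]
      apply dvd_add
      · exact Dvd.dvd.mul_left (by exact_mod_cast h) d
      · exact Dvd.dvd.mul_right (dvd_pow_self 3 (by omega)) z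
    exact_mod_cast h5
  obtain ⟨K0, hK0⟩ := reach_odd t (by omega) p hplt hp3
  refine ⟨s, K0 + 1, fun K hK => ?_⟩
  obtain ⟨y, hy, hyodd, horb⟩ := hK0 K (by omega)
  have hb := orb_bound K y
  rw [horb] at hb
  simp only at hb
  obtain ⟨hb1, hb2⟩ := hb
  have hT := T_iter hd K y z
  rw [horb] at hT
  simp only at hT
  rw [← hz] at hT
  set x : ℤ := d * y + 2 ^ K * z with hx
  set E : ℤ := 2 ^ K * p - 3 ^ t * y with hE
  have hE0 : 0 ≤ E := by
    rw [hE]
    have : ((3 ^ t * y : ℕ) : ℤ) ≤ ((2 ^ K * p : ℕ) : ℤ) := by exact_mod_cast hb1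
    push_cast at this
    linarith
  have hE1 : 2 ^ t * E < 2 ^ K * 3 ^ t := by
    have : ((2 ^ t * (2 ^ K * p) + 2 ^ K * 2 ^ t : ℕ) : ℤ) ≤
      ((2 ^ K * 3 ^ t + 2 ^ t * (3 ^ t * y) : ℕ) : ℤ) := by exact_mod_cast hb2
    push_cast at this
    have hpos : (0 : ℤ) < 2 ^ K * 2 ^ t := by positivity
    rw [hE, mul_sub]
    linarith
  have hx3 : 3 ^ t * x = 2 ^ K * N - d * E := by
    rw [hx, hE, hz]; ring
  have hdE : |4 * (d * E)| < 2 ^ K * 3 ^ t := by
    rw [abs_mul, abs_mul, abs_of_nonneg hE0]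
    have h5 : (4 : ℤ) * |d| ≤ 2 ^ t := by
      have : ((4 * d.natAbs : ℕ) : ℤ) < ((2 ^ t : ℕ) : ℤ) := by exact_mod_cast hq2
      push_cast at this
      linarith
    have h6 : (|(4 : ℤ)| : ℤ) = 4 := rfl
    rw [h6, ← mul_assoc]
    calc 4 * |d| * E ≤ 2 ^ t * E := mul_le_mul_of_nonneg_right h5 hE0
      _ < _ := hE1
  rw [abs_lt] at hdE
  obtain ⟨hdE1, hdE2⟩ := hdE
  have hlo' : ((4 * m + 1) * 3 ^ t : ℤ) < 4 * N := by exact_mod_cast hlo
  have hhi' : (4 * N : ℤ) < (4 * m + 3) * 3 ^ t := by exact_mod_cast hhi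
  have h2K : (0 : ℤ) < 2 ^ K := by positivity
  have h3q : (0 : ℤ) < 3 ^ t := by positivity
  have hlo2 : (2 : ℤ) ^ K * ((4 * m + 1) * 3 ^ t) < 2 ^ K * (4 * N) :=
    mul_lt_mul_of_pos_left hlo' h2K
  have hhi2 : (2 : ℤ) ^ K * (4 * N) < 2 ^ K * ((4 * m + 3) * 3 ^ t) :=
    mul_lt_mul_of_pos_left hhi' h2K
  have hxlo : 2 ^ K * (m : ℤ) < x := by
    have : (3 : ℤ) ^ t * (2 ^ K * m) < 3 ^ t * x := by
      rw [hx3]
      have : 4 * ((3 : ℤ) ^ t * (2 ^ K * m)) < 4 * (2 ^ K * N - d * E) := by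
        calc 4 * ((3 : ℤ) ^ t * (2 ^ K * m)) = 2 ^ K * ((4 * m + 1) * 3 ^ t) - 2 ^ K * 3 ^ t := by
              ring
          _ < 2 ^ K * (4 * N) - 4 * (d * E) := by linarith
          _ = _ := by ring
      linarith
    exact lt_of_mul_lt_mul_left this h3q.le
  have hxhi : x < 2 ^ K * ((m : ℤ) + 1) := by
    have : (3 : ℤ) ^ t * x < 3 ^ t * (2 ^ K * (m + 1)) := by
      rw [hx3]
      have : 4 * (2 ^ K * N - d * E) < 4 * ((3 : ℤ) ^ t * (2 ^ K * (m + 1))) := by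
        calc 4 * (2 ^ K * N - d * E) = 2 ^ K * (4 * N) - 4 * (d * E) := by ring
          _ < 2 ^ K * ((4 * m + 3) * 3 ^ t) + 2 ^ K * 3 ^ t := by linarith
          _ = _ := by ring
      linarith
    exact lt_of_mul_lt_mul_left this h3q.le
  obtain ⟨r, hr⟩ : ∃ r : ℕ, x = ((r + 2 ^ K * m : ℕ) : ℤ) := by
    refine ⟨(x - 2 ^ K * m).toNat, ?_⟩
    push_cast
    rw [Int.toNat_of_nonneg (by linarith)]
    ring
  refine ⟨r, ?_, ?_, ?_⟩
  · rw [hr] at hxhi
    push_cast at hxhi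
    have : (r : ℤ) < 2 ^ K := by linarith
    exact_mod_cast this
  · -- oddness
    obtain ⟨K', rfl⟩ : ∃ K', K = K' + 1 := ⟨K - 1, by omega⟩
    have h7 : (d * y + 2 ^ (K' + 1) * z : ℤ) = ((r + 2 ^ (K' + 1) * m : ℕ) : ℤ) := hr
    push_cast at h7
    rw [pow_succ] at h7
    obtain ⟨e', rfl⟩ : ∃ e', d = 2 * e' + 1 := ⟨d / 2, by omega⟩
    obtain ⟨y', rfl⟩ : ∃ y', y = 2 * y' + 1 := ⟨y / 2, by omega⟩
    have h8 : (r : ℤ) = 2 * ((2 * e' + 1) * y' + e' + 2 ^ K' * z - 2 ^ K' * m) + 1 := by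
      push_cast at h7
      linear_combination -h7
    omega
  · rw [← hr, hT, hN]
    push_cast
    ring

variable {α : Type*}

/-- From long runs with `c y = c (y + 2)` to arbitrarily large dyadic blocks on which `c` is constant
on the odd integers. -/
lemma dyadic_odd {c : ℕ → α} {m0 : ℕ} (hm0 : 1 ≤ m0)
    (H : ∀ X : ℕ, ∃ x, X ≤ x ∧ ∀ y, x ≤ y → m0 * (y + 2) < (m0 + 1) * x → c y = c (y + 2)) :
    ∃ m, 1 ≤ m ∧ ∀ K0 : ℕ, ∃ K, K0 ≤ K ∧ ∀ a b, a < 2 ^ K → b < 2 ^ K → a % 2 = 1 → b % 2 = 1 →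
      c (a + 2 ^ K * m) = c (b + 2 ^ K * m) := by
  classical
  have h1 : ∀ k0 : ℕ, ∃ m, 1 ≤ m ∧ m ≤ 8 * m0 + 1 ∧ ∃ K, k0 ≤ K ∧
      ∀ a b, a < 2 ^ K → b < 2 ^ K → a % 2 = 1 → b % 2 = 1 →
      c (a + 2 ^ K * m) = c (b + 2 ^ K * m) := by
    intro k0
    obtain ⟨x, hx, hxc⟩ := H (4 * m0 * 2 ^ k0)
    have hex : ∃ k, x < 4 * m0 * 2 ^ (k + 1) := by
      obtain ⟨k, hk⟩ := exists_nat_gt x
      refine ⟨k, ?_⟩
      have h2 : k < 2 ^ (k + 1) := (Nat.lt_two_pow_self).trans_le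
        (Nat.pow_le_pow_right (by norm_num) (by omega))
      calc x < k := by exact_mod_cast hk
        _ < 2 ^ (k + 1) := h2
        _ ≤ 4 * m0 * 2 ^ (k + 1) := Nat.le_mul_of_pos_left _ (by omega)
    set k' := Nat.find hex with hk'
    have hk1 : x < 4 * m0 * 2 ^ (k' + 1) := Nat.find_spec hex
    have hk0 : k0 ≤ k' := by
      by_contra hcon
      have : 4 * m0 * 2 ^ (k' + 1) ≤ 4 * m0 * 2 ^ k0 :=
        Nat.mul_le_mul_left _ (Nat.pow_le_pow_right (by norm_num) (by omega))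
      omega
    have hk2 : 4 * m0 * 2 ^ k' ≤ x := by
      rcases Nat.eq_zero_or_pos k' with h0 | h0
      · rw [h0]
        have : 4 * m0 * 2 ^ 0 ≤ 4 * m0 * 2 ^ k0 :=
          Nat.mul_le_mul_left _ (Nat.pow_le_pow_right (by norm_num) (by omega))
        omega
      · have := Nat.find_min hex (m := k' - 1) (by omega)
        rw [show k' - 1 + 1 = k' by omega] at this
        omega
    set p := 2 ^ k' with hp
    have hppos : 0 < p := by positivity
    set m := x / p + 1 with hm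
    have hmx : x < p * m := by
      rw [hm]; exact Nat.lt_mul_div_succ x hppos
    have hmx2 : p * m ≤ x + p := by
      rw [hm, mul_add, mul_one]
      have := Nat.mul_div_le x p
      omega
    have hmle : m ≤ 8 * m0 + 1 := by
      rw [pow_succ, ← hp] at hk1
      have : x / p < 8 * m0 := by
        rw [Nat.div_lt_iff_lt_mul hppos]
        calc x < 4 * m0 * (p * 2) := hk1
          _ = 8 * m0 * p := by ring
      omega
    have hblock : ∀ r, r + 2 < p → c (r + p * m) = c (r + 2 + p * m) := by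
      intro r hr
      rw [show r + 2 + p * m = r + p * m + 2 by ring]
      apply hxc
      · omega
      · have : r + p * m + 2 < x + 2 * p := by omega
        nlinarith
    have hmany : ∀ t r, r + t * 2 < p → c (r + p * m) = c (r + t * 2 + p * m) := by
      intro t
      induction t with
      | zero => intro r _; simp
      | succ t ih =>
        intro r hr
        rw [ih r (by omega), show r + (t + 1) * 2 = (r + t * 2) + 2 by ring]
        exact hblock _ (by omega)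
    refine ⟨m, Nat.le_add_left 1 _, hmle, k', hk0, fun a b ha hb hao hbo => ?_⟩
    rcases le_total a b with hab | hab
    · have := hmany ((b - a) / 2) a (by omega)
      rwa [show a + (b - a) / 2 * 2 = b by omega] at this
    · have := hmany ((a - b) / 2) b (by omega)
      rw [show b + (a - b) / 2 * 2 = a by omega] at this
      exact this.symm
  by_contra hcon
  push Not at hcon
  have h2' : ∀ m, ∃ K0, 1 ≤ m → ∀ K, K0 ≤ K → ∃ a b, a < 2 ^ K ∧ b < 2 ^ K ∧ a % 2 = 1 ∧ b % 2 = 1 ∧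
      c (a + 2 ^ K * m) ≠ c (b + 2 ^ K * m) := by
    intro m
    by_cases hm : 1 ≤ m
    · obtain ⟨K0, hK0⟩ := hcon m hm
      exact ⟨K0, fun _ => hK0⟩
    · exact ⟨0, fun h => absurd h hm⟩
  choose kk hkk using h2'
  obtain ⟨m, hm1, hm2, K, hK, hgood⟩ := h1 (∑ m ∈ Finset.range (8 * m0 + 2), kk m)
  have hle : kk m ≤ ∑ m ∈ Finset.range (8 * m0 + 2), kk m :=
    Finset.single_le_sum (f := kk) (fun _ _ => Nat.zero_le _) (Finset.mem_range.mpr (by omega))
  obtain ⟨a, b, ha, hb, hao, hbo, hne⟩ := hkk m hm1 K (by omega)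
  exact hne (hgood a b ha hb hao hbo)

lemma ZD.mono {A B : Set ℕ} (h : A ⊆ B) (hB : ZD B) : ZD A := by
  intro ε hε
  obtain ⟨N0, hN0⟩ := hB ε hε
  refine ⟨N0, fun N hN => le_trans ?_ (hN0 N hN)⟩
  exact_mod_cast Set.ncard_le_ncard (Set.inter_subset_inter_left _ h)
    ((Set.finite_Icc 1 N).subset Set.inter_subset_right)

lemma ZD.union {A B : Set ℕ} (hA : ZD A) (hB : ZD B) : ZD (A ∪ B) := by
  intro ε hε
  obtain ⟨N0, hN0⟩ := hA (ε / 2) (by positivity)
  obtain ⟨N1, hN1⟩ := hB (ε / 2) (by positivity)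
  refine ⟨max N0 N1, fun N hN => ?_⟩
  have h1 := hN0 N (le_trans (le_max_left _ _) hN)
  have h2 := hN1 N (le_trans (le_max_right _ _) hN)
  have h3 : ((A ∪ B) ∩ Set.Icc 1 N).ncard ≤ (A ∩ Set.Icc 1 N).ncard + (B ∩ Set.Icc 1 N).ncard := by
    rw [Set.union_inter_distrib_right]
    exact Set.ncard_union_le _ _
  have h4 : (((A ∪ B) ∩ Set.Icc 1 N).ncard : ℝ) ≤
    (A ∩ Set.Icc 1 N).ncard + (B ∩ Set.Icc 1 N).ncard := by exact_mod_cast h3
  linarith

/-- the odd part -/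
def odp (n : ℕ) : ℕ := ordCompl[2] n

lemma odp_two (n : ℕ) : odp (2 * n) = odp n := by
  unfold odp
  rw [Nat.ordCompl_mul]
  have : ordCompl[2] 2 = 1 := by
    simp [Nat.Prime.factorization_self Nat.prime_two]
  rw [this, one_mul]

lemma odp_odd {n : ℕ} (h : n % 2 = 1) : odp n = n := by
  unfold odp
  rw [Nat.factorization_eq_zero_of_not_dvd (by omega), pow_zero, Nat.div_one]

lemma odp_pow (j n : ℕ) : odp (2 ^ j * n) = odp n := by
  induction j with
  | zero => simp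
  | succ j ih => rw [pow_succ', mul_assoc, odp_two, ih]

lemma odp_isOdd {n : ℕ} (h : 1 ≤ n) : odp n % 2 = 1 := by
  have := Nat.not_dvd_ordCompl Nat.prime_two (n := n) (by omega)
  unfold odp
  omega

lemma odp_dvd (n : ℕ) : odp n ∣ n := Nat.ordCompl_dvd n 2

/-- **Odd version.**  A `k`-regular function on the odd positive integers (extended by zero) which is
constant along the orbits of `n ↦` odd part of `3 n - 1` is constant. -/
theorem odd_const {R M : Type*} [Ring R] [IsNoetherianRing R] [AddCommGroup M] [Module R M]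
    {c : ℕ → M} (h0 : ∀ n, n % 2 = 0 → c n = 0)
    (h : ∀ n, n % 2 = 1 → c (odp (3 * n - 1)) = c n) {k : ℕ} (hk : 2 ≤ k)
    (hfin : (Submodule.span R (kernel k c)).FG) : ∀ n, n % 2 = 1 → c n = c 1 := by
  set f : ℤ → M := fun x => if 0 < x then c (odp x.toNat) else 0 with hf
  have hfn : ∀ n : ℕ, 1 ≤ n → f n = c (odp n) := by
    intro n hn
    simp only [hf]
    rw [if_pos (by omega), Int.toNat_natCast]
  have hfo : ∀ n : ℕ, n % 2 = 1 → f n = c n := by
    intro n hn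
    rw [hfn n (by omega), odp_odd hn]
  have hinv : ∀ x, f (T (-1) x) = f x := by
    intro x
    by_cases hx : 0 < x
    · obtain ⟨n, rfl⟩ : ∃ n : ℕ, x = n := ⟨x.toNat, (Int.toNat_of_nonneg hx.le).symm⟩
      rcases Nat.even_or_odd' n with ⟨t, rfl | rfl⟩
      · have e : T (-1) ((2 * t : ℕ) : ℤ) = (t : ℤ) := by
          unfold T; rw [if_pos (by omega)]; omega
        rw [e, hfn t (by omega), hfn (2 * t) (by omega), odp_two]
      · have e : T (-1) ((2 * t + 1 : ℕ) : ℤ) = ((3 * t + 1 : ℕ) : ℤ) := by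
          unfold T; rw [if_neg (by omega)]; omega
        rw [e, hfn _ (by omega), hfo (2 * t + 1) (by omega), ← h (2 * t + 1) (by omega)]
        rw [show 3 * (2 * t + 1) - 1 = 2 * (3 * t + 1) by omega, odp_two]
    · have e : ¬ 0 < T (-1) x := by
        unfold T; split_ifs <;> omega
      simp only [hf]
      rw [if_neg e, if_neg hx]
  -- almost periodicity
  have hzd : ZD {n : ℕ | c n ≠ c (n + 2)} := by
    have h1 := zd (d := -1) (by norm_num) hinv 1
    have h2 := zd (d := -1) (by norm_num) hinv 2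
    refine ZD.mono ?_ (ZD.union h1 h2)
    intro n hn
    by_contra hcon
    rw [Set.mem_union, not_or] at hcon
    obtain ⟨h5, h6⟩ := hcon
    have h5' : f ((n : ℤ) + 1) = f (n + 1 + -1) := by
      by_contra h7; exact h5 h7
    have h6' : f ((n : ℤ) + 2) = f (n + 2 + -1) := by
      by_contra h7; exact h6 h7
    apply hn
    rcases Nat.mod_two_eq_zero_or_one n with h8 | h8
    · rw [h0 n h8, h0 (n + 2) (by omega)]
    · rw [← hfo n h8, ← hfo (n + 2) (by omega)]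
      push_cast
      rw [h6', show (n : ℤ) + 2 + -1 = n + 1 by ring, h5', show (n : ℤ) + 1 + -1 = n by ring]
  obtain ⟨m0, hm0, hblock⟩ := exists_block hzd hk hfin
  obtain ⟨m, hm1, hm⟩ := dyadic_odd (c := c) hm0 (fun X => ⟨k ^ X * m0, by
      have : X < k ^ X := Nat.lt_pow_self (by omega)
      nlinarith, fun y hy1 hy2 => by
      obtain ⟨r, rfl⟩ : ∃ r, y = k ^ X * m0 + r := ⟨y - k ^ X * m0, by omega⟩
      apply hblock
      have h1 : m0 * (k ^ X * m0 + r + 2) < (m0 + 1) * (k ^ X * m0) := hy2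
      have h2 : m0 * (r + 2) < m0 * k ^ X := by nlinarith
      exact lt_of_mul_lt_mul_left h2 (Nat.zero_le _)⟩)
  -- integers prime to 3
  have hval : ∀ n : ℕ, n % 2 = 1 → ¬ 3 ∣ n → ∃ K0, ∀ K, K0 ≤ K → ∃ r, r < 2 ^ K ∧ r % 2 = 1 ∧
      c (r + 2 ^ K * m) = c n := by
    intro n hn hn3
    obtain ⟨e, K0, hK0⟩ := target_odd (d := -1) (by norm_num) (by norm_num) m n (by omega) hn3
    refine ⟨K0 + 1, fun K hK => ?_⟩
    obtain ⟨r, hr, hro, hT⟩ := hK0 K (by omega)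
    refine ⟨r, hr, hro, ?_⟩
    have h5 : (r + 2 ^ K * m) % 2 = 1 := by
      obtain ⟨K', rfl⟩ : ∃ K', K = K' + 1 := ⟨K - 1, by omega⟩
      rw [pow_succ]
      have : 2 ^ K' * 2 * m = 2 * (2 ^ K' * m) := by ring
      rw [this]; omega
    rw [← hfo _ h5, ← inv_iter hinv K, hT]
    have h6 : ((2 : ℤ) ^ e * (n : ℤ)) = ((2 ^ e * n : ℕ) : ℤ) := by push_cast; ring
    have h7 : 1 ≤ 2 ^ e * n := Nat.mul_pos (by positivity) (by omega)
    rw [h6, hfn _ h7, odp_pow, odp_odd hn]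
  have hcop : ∀ n : ℕ, n % 2 = 1 → ¬ 3 ∣ n → c n = c 1 := by
    intro n hn hn3
    obtain ⟨K1, h1⟩ := hval n hn hn3
    obtain ⟨K2, h2⟩ := hval 1 (by norm_num) (by norm_num)
    obtain ⟨K, hK, hgood⟩ := hm (max K1 K2)
    obtain ⟨r1, hr1, ho1, e1⟩ := h1 K (le_trans (le_max_left _ _) hK)
    obtain ⟨r2, hr2, ho2, e2⟩ := h2 K (le_trans (le_max_right _ _) hK)
    rw [← e1, ← e2]
    exact hgood r1 r2 hr1 hr2 ho1 ho2
  intro n hn
  by_cases h3 : 3 ∣ n
  · rw [← h n hn]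
    apply hcop _ (odp_isOdd (by omega))
    intro h4
    have h5 := h4.trans (odp_dvd (3 * n - 1))
    omega
  · exact hcop n hn h3

end Pool.Agent.H284R3.RD
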