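import Mathlib
import Pool.Agent.H284R3.RD.Main

set_option autoImplicit false

namespace Pool.Agent.H284R3.RD

open Pool.Agent.Helper605.CP Pool.Agent.H397R2 Filter Topology

open Classical in
/-- the number of `n ≤ N` in `A` which are `≡ a` modulo `M` -/
noncomputable def cnt (A : Set ℤ) (M : ℕ) (a : ℤ) (N : ℕ) : ℝ :=
  (((Finset.Icc 1 N).filter (fun n : ℕ => (n : ℤ) ∈ A ∧ (n : ℤ) ≡ a [ZMOD M])).card : ℝ)

/-- equal up to `o(N)` -/
def Sim (f g : ℕ → ℝ) : Prop := ∀ ε : ℝ, 0 < ε → ∃ N0 : ℕ, ∀ N : ℕ, N0 ≤ N → |f N - g N| ≤ ε * N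

lemma Sim.refl (f : ℕ → ℝ) : Sim f f := fun ε hε => ⟨0, fun N _ => by
  rw [sub_self, abs_zero]; positivity⟩

lemma Sim.symm {f g : ℕ → ℝ} (h : Sim f g) : Sim g f := fun ε hε => by
  obtain ⟨N0, h0⟩ := h ε hε
  exact ⟨N0, fun N hN => by rw [abs_sub_comm]; exact h0 N hN⟩

lemma Sim.trans {f g k : ℕ → ℝ} (h1 : Sim f g) (h2 : Sim g k) : Sim f k := fun ε hε => by
  obtain ⟨N1, h1⟩ := h1 (ε / 2) (by positivity)
  obtain ⟨N2, h2⟩ := h2 (ε / 2) (by positivity)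
  refine ⟨max N1 N2, fun N hN => ?_⟩
  have e1 := h1 N (le_trans (le_max_left _ _) hN)
  have e2 := h2 N (le_trans (le_max_right _ _) hN)
  have e3 := abs_sub_le (f N) (g N) (k N)
  linarith

lemma Sim.add {f g f' g' : ℕ → ℝ} (h1 : Sim f g) (h2 : Sim f' g') :
    Sim (fun N => f N + f' N) (fun N => g N + g' N) := fun ε hε => by
  obtain ⟨N1, h1⟩ := h1 (ε / 2) (by positivity)
  obtain ⟨N2, h2⟩ := h2 (ε / 2) (by positivity)
  refine ⟨max N1 N2, fun N hN => ?_⟩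
  have e1 := h1 N (le_trans (le_max_left _ _) hN)
  have e2 := h2 N (le_trans (le_max_right _ _) hN)
  have e3 : f N + f' N - (g N + g' N) = (f N - g N) + (f' N - g' N) := by ring
  have e4 := abs_add_le (f N - g N) (f' N - g' N)
  rw [e3]
  linarith

lemma Sim.mul {f g : ℕ → ℝ} (c : ℝ) (h : Sim f g) : Sim (fun N => c * f N) (fun N => c * g N) :=
  fun ε hε => by
  obtain ⟨N1, h1⟩ := h (ε / (|c| + 1)) (by positivity)
  refine ⟨N1, fun N hN => ?_⟩
  have e1 := h1 N hN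
  rw [← mul_sub, abs_mul]
  have h3 : |c| * |f N - g N| ≤ |c| * (ε / (|c| + 1) * N) := mul_le_mul_of_nonneg_left e1 (abs_nonneg c)
  have h4 : |c| * (ε / (|c| + 1) * N) ≤ ε * N := by
    have h5 : |c| / (|c| + 1) ≤ 1 := by
      rw [div_le_one (by positivity)]; linarith
    have h6 : |c| * (ε / (|c| + 1) * N) = |c| / (|c| + 1) * (ε * N) := by ring
    rw [h6]
    have h7 : 0 ≤ ε * (N : ℝ) := by positivity
    nlinarith
  linarith

lemma Sim.comp {f g : ℕ → ℝ} (K : ℕ) (hK : 1 ≤ K) (h : Sim f g) :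
    Sim (fun N => f (K * N)) (fun N => g (K * N)) := fun ε hε => by
  obtain ⟨N1, h1⟩ := h (ε / K) (by positivity)
  refine ⟨N1, fun N hN => ?_⟩
  have e1 := h1 (K * N) (le_trans hN (Nat.le_mul_of_pos_left N hK))
  refine e1.trans (le_of_eq ?_)
  have : (K : ℝ) ≠ 0 := by positivity
  push_cast
  field_simp

lemma Sim.of_bound {f g : ℕ → ℝ} (C : ℝ) (h : ∀ N, |f N - g N| ≤ C) : Sim f g := fun ε hε => by
  obtain ⟨N0, hN0⟩ := exists_nat_gt (C / ε)
  refine ⟨N0, fun N hN => (h N).trans ?_⟩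
  rw [div_lt_iff₀ hε] at hN0
  have : (N0 : ℝ) ≤ N := by exact_mod_cast hN
  nlinarith

lemma cnt_congr {A : Set ℤ} {M : ℕ} {a b : ℤ} (h : a ≡ b [ZMOD M]) : cnt A M a = cnt A M b := by
  funext N
  unfold cnt
  congr 2
  ext n
  simp only [Finset.mem_filter]
  constructor
  · rintro ⟨h1, h2, h3⟩; exact ⟨h1, h2, h3.trans h⟩
  · rintro ⟨h1, h2, h3⟩; exact ⟨h1, h2, h3.trans h.symm⟩

lemma cnt_nonneg (A : Set ℤ) (M : ℕ) (a : ℤ) (N : ℕ) : 0 ≤ cnt A M a N := by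
  unfold cnt; positivity

lemma cnt_le (A : Set ℤ) (M : ℕ) (a : ℤ) (N : ℕ) : cnt A M a N ≤ N := by
  classical
  unfold cnt
  have h2 : ((Finset.Icc 1 N).filter (fun n : ℕ => (n : ℤ) ∈ A ∧ (n : ℤ) ≡ a [ZMOD M])).card ≤
      (Finset.Icc 1 N).card := Finset.card_filter_le _ _
  rw [Nat.card_Icc, Nat.add_sub_cancel] at h2
  exact_mod_cast h2

lemma cnt_mono (A : Set ℤ) (M : ℕ) (a : ℤ) {N N' : ℕ} (h : N ≤ N') :
    cnt A M a N ≤ cnt A M a N' ∧ cnt A M a N' ≤ cnt A M a N + (N' - N) := by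
  classical
  unfold cnt
  constructor
  · have : ((Finset.Icc 1 N).filter (fun n : ℕ => (n : ℤ) ∈ A ∧ (n : ℤ) ≡ a [ZMOD M])) ⊆
        ((Finset.Icc 1 N').filter (fun n : ℕ => (n : ℤ) ∈ A ∧ (n : ℤ) ≡ a [ZMOD M])) :=
      Finset.filter_subset_filter _ (Finset.Icc_subset_Icc_right h)
    exact_mod_cast Finset.card_le_card this
  · have : ((Finset.Icc 1 N').filter (fun n : ℕ => (n : ℤ) ∈ A ∧ (n : ℤ) ≡ a [ZMOD M])) ⊆
        ((Finset.Icc 1 N).filter (fun n : ℕ => (n : ℤ) ∈ A ∧ (n : ℤ) ≡ a [ZMOD M])) ∪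
          Finset.Icc (N + 1) N' := by
      intro n hn
      simp only [Finset.mem_union, Finset.mem_filter, Finset.mem_Icc] at hn ⊢
      by_cases h1 : n ≤ N
      · left; exact ⟨⟨hn.1.1, h1⟩, hn.2⟩
      · right; omega
    have h2 := (Finset.card_le_card this).trans (Finset.card_union_le _ _)
    rw [Nat.card_Icc] at h2
    have h3 : (((Finset.Icc 1 N').filter (fun n : ℕ => (n : ℤ) ∈ A ∧ (n : ℤ) ≡ a [ZMOD M])).card : ℝ)
        ≤ (((Finset.Icc 1 N).filter (fun n : ℕ => (n : ℤ) ∈ A ∧ (n : ℤ) ≡ a [ZMOD M])).card : ℝ) +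
          ((N' + 1 - (N + 1) : ℕ) : ℝ) := by exact_mod_cast h2
    rw [Nat.add_sub_add_right, Nat.cast_sub h] at h3
    exact h3

/-- a general comparison: an injection up to exceptions -/
lemma card_le_of_inj {S T U V : Finset ℕ} (f : ℕ → ℕ)
    (hinj : ∀ x ∈ S, x ∉ U → ∀ y ∈ S, y ∉ U → f x = f y → x = y)
    (hmap : ∀ x ∈ S, x ∉ U → f x ∈ T ∨ f x ∈ V) : S.card ≤ U.card + T.card + V.card := by
  classical
  have h1 : (S \ U).card ≤ (T ∪ V).card := by
    apply Finset.card_le_card_of_injOn f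
    · intro x hx
      have hx' := Finset.mem_sdiff.mp hx
      exact Finset.mem_coe.mpr (Finset.mem_union.mpr (hmap x hx'.1 hx'.2))
    · intro x hx y hy hxy
      have hx' := Finset.mem_sdiff.mp hx
      have hy' := Finset.mem_sdiff.mp hy
      exact hinj x hx'.1 hx'.2 y hy'.1 hy'.2 hxy
  have h2 : S.card ≤ (S \ U).card + U.card := by
    have := Finset.card_le_card_sdiff_add_card (s := S) (t := U)
    exact this
  have h3 := Finset.card_union_le T V
  omega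

/-- invariance of a set -/
def Inv (d : ℤ) (A : Set ℤ) : Prop := ∀ x, x ∈ A ↔ T d x ∈ A

lemma zd_abs {α : Type*} {d : ℤ} (hd : d % 2 = 1) {c : ℤ → α} (h : ∀ x, c (T d x) = c x) :
    ZD {n : ℕ | c (n : ℤ) ≠ c ((n + d.natAbs : ℕ) : ℤ)} := by
  rcases Int.natAbs_eq d with h5 | h5
  · have := zd hd h 0
    have e : {n : ℕ | c ((n : ℤ) + 0) ≠ c (n + 0 + d)} =
        {n : ℕ | c (n : ℤ) ≠ c ((n + d.natAbs : ℕ) : ℤ)} := by
      ext n
      show c ((n : ℤ) + 0) ≠ c (n + 0 + d) ↔ c (n : ℤ) ≠ c ((n + d.natAbs : ℕ) : ℤ)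
      rw [add_zero]
      push_cast
      rw [Int.natCast_natAbs] at h5
      rw [← h5]
    rw [e] at this
    exact this
  · have := zd hd h (-d)
    have e : {n : ℕ | c ((n : ℤ) + -d) ≠ c (n + -d + d)} =
        {n : ℕ | c (n : ℤ) ≠ c ((n + d.natAbs : ℕ) : ℤ)} := by
      ext n
      show c ((n : ℤ) + -d) ≠ c (n + -d + d) ↔ c (n : ℤ) ≠ c ((n + d.natAbs : ℕ) : ℤ)
      rw [neg_add_cancel_right]
      push_cast
      rw [Int.natCast_natAbs] at h5
      have h6 : |d| = -d := by omega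
      rw [h6]
      exact ne_comm
    rw [e] at this
    exact this

/-- shift by `|d|` -/
lemma shift {d : ℤ} (hd : d % 2 = 1) {A : Set ℤ} (h : Inv d A) (M : ℕ) (a : ℤ) :
    Sim (cnt A M a) (cnt A M (a + d.natAbs)) := by
  classical
  have hz := zd_abs hd (c := fun x => (x ∈ A : Prop)) (fun x => propext (h x).symm)
  intro ε hε
  obtain ⟨N0, hN0⟩ := hz (ε / 2) (by positivity)
  obtain ⟨N1, hN1⟩ := exists_nat_gt ((d.natAbs : ℝ) / (ε / 2))
  refine ⟨max N0 N1, fun N hN => ?_⟩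
  have hb := hN0 N (le_trans (le_max_left _ _) hN)
  set U : Finset ℕ := (Finset.Icc 1 N).filter
    (fun n : ℕ => ¬ ((n : ℤ) ∈ A ↔ ((n + d.natAbs : ℕ) : ℤ) ∈ A)) with hU
  have hUc : (U.card : ℝ) ≤ ε / 2 * N := by
    have e : ({n : ℕ | (fun x => (x ∈ A : Prop)) (n : ℤ) ≠
        (fun x => (x ∈ A : Prop)) ((n + d.natAbs : ℕ) : ℤ)} ∩ Set.Icc 1 N) = ↑U := by
      ext n
      simp only [hU, Finset.coe_filter, Finset.mem_Icc, Set.mem_inter_iff, Set.mem_Icc]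
      constructor
      · rintro ⟨h1, h2⟩
        exact ⟨h2, fun h3 => h1 (propext h3)⟩
      · rintro ⟨h1, h2⟩
        exact ⟨fun h3 => h2 (iff_of_eq h3), h1⟩
    rw [e, Set.ncard_coe_finset] at hb
    exact hb
  have hD : (d.natAbs : ℝ) ≤ ε / 2 * N := by
    rw [div_lt_iff₀ (by positivity)] at hN1
    have : (N1 : ℝ) ≤ N := by exact_mod_cast le_trans (le_max_right _ _) hN
    nlinarith
  have h1 : ((Finset.Icc 1 N).filter (fun n : ℕ => (n : ℤ) ∈ A ∧ (n : ℤ) ≡ a [ZMOD M])).card ≤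
      U.card + ((Finset.Icc 1 N).filter
        (fun n : ℕ => (n : ℤ) ∈ A ∧ (n : ℤ) ≡ a + d.natAbs [ZMOD M])).card +
        (Finset.Icc (N + 1) (N + d.natAbs)).card := by
    apply card_le_of_inj (fun n => n + d.natAbs)
    · intro x _ _ y _ _ hxy
      exact Nat.add_right_cancel hxy
    · intro x hx hxU
      simp only [hU, Finset.mem_filter, Finset.mem_Icc] at hx hxU ⊢
      have h2 : ((x : ℤ) ∈ A ↔ ((x + d.natAbs : ℕ) : ℤ) ∈ A) := by
        by_contra h3; exact hxU ⟨hx.1, h3⟩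
      have h3 : (((x + d.natAbs : ℕ) : ℤ)) ≡ a + d.natAbs [ZMOD M] := by
        push_cast
        rw [← Int.natCast_natAbs]
        exact Int.ModEq.add_right _ hx.2.2
      by_cases h4 : x + d.natAbs ≤ N
      · left; exact ⟨⟨by omega, h4⟩, h2.mp hx.2.1, h3⟩
      · right; omega
  have h2 : ((Finset.Icc 1 N).filter
      (fun n : ℕ => (n : ℤ) ∈ A ∧ (n : ℤ) ≡ a + d.natAbs [ZMOD M])).card ≤
      (U ∪ U).card + ((Finset.Icc 1 N).filter
        (fun n : ℕ => (n : ℤ) ∈ A ∧ (n : ℤ) ≡ a [ZMOD M])).card + (Finset.Icc 1 d.natAbs).card := by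
    -- exceptional: small ones and those whose predecessor is bad
    have h5 : ((Finset.Icc 1 N).filter
      (fun n : ℕ => (n : ℤ) ∈ A ∧ (n : ℤ) ≡ a + d.natAbs [ZMOD M])).card ≤
      (Finset.Icc 1 d.natAbs).card + ((Finset.Icc 1 N).filter
        (fun n : ℕ => (n : ℤ) ∈ A ∧ (n : ℤ) ≡ a [ZMOD M])).card + U.card := by
      apply card_le_of_inj (fun n => n - d.natAbs)
      · intro x hx hxU y hy hyU hxy
        simp only [Finset.mem_filter, Finset.mem_Icc] at hx hxU hy hyU hxy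
        omega
      · intro x hx hxU
        simp only [hU, Finset.mem_filter, Finset.mem_Icc] at hx hxU ⊢
        obtain ⟨y, rfl⟩ : ∃ y, x = y + d.natAbs := ⟨x - d.natAbs, by omega⟩
        simp only [Nat.add_sub_cancel]
        have h3 : (y : ℤ) ≡ a [ZMOD M] := by
          have := hx.2.2
          push_cast at this
          rw [← Int.natCast_natAbs] at this
          exact Int.ModEq.add_right_cancel' _ this
        by_cases h4 : ((y : ℤ) ∈ A ↔ ((y + d.natAbs : ℕ) : ℤ) ∈ A)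
        · left; exact ⟨⟨by omega, by omega⟩, h4.mpr hx.2.1, h3⟩
        · right; exact ⟨⟨by omega, by omega⟩, h4⟩
    rw [Finset.union_self]
    omega
  rw [Finset.union_self] at h2
  rw [Nat.card_Icc] at h1 h2
  have h1' : ((Finset.Icc 1 N).filter (fun n : ℕ => (n : ℤ) ∈ A ∧ (n : ℤ) ≡ a [ZMOD M])).card ≤
      U.card + ((Finset.Icc 1 N).filter
        (fun n : ℕ => (n : ℤ) ∈ A ∧ (n : ℤ) ≡ a + d.natAbs [ZMOD M])).card + d.natAbs := by omega
  have h2' : ((Finset.Icc 1 N).filter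
      (fun n : ℕ => (n : ℤ) ∈ A ∧ (n : ℤ) ≡ a + d.natAbs [ZMOD M])).card ≤
      U.card + ((Finset.Icc 1 N).filter
        (fun n : ℕ => (n : ℤ) ∈ A ∧ (n : ℤ) ≡ a [ZMOD M])).card + d.natAbs := by omega
  have e1 : cnt A M a N ≤ U.card + cnt A M (a + d.natAbs) N + d.natAbs := by
    unfold cnt; exact_mod_cast h1'
  have e2 : cnt A M (a + d.natAbs) N ≤ U.card + cnt A M a N + d.natAbs := by
    unfold cnt; exact_mod_cast h2'
  rw [abs_le]
  constructor <;> linarith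

lemma shift_many {d : ℤ} (hd : d % 2 = 1) {A : Set ℤ} (h : Inv d A) (M : ℕ) (a : ℤ) (t : ℕ) :
    Sim (cnt A M a) (cnt A M (a + t * d.natAbs)) := by
  induction t with
  | zero =>
    have : a + ((0 : ℕ) : ℤ) * d.natAbs = a := by push_cast; ring
    rw [this]; exact Sim.refl _
  | succ t ih =>
    have e : a + ((t + 1 : ℕ) : ℤ) * d.natAbs = (a + t * d.natAbs) + d.natAbs := by push_cast; ring
    rw [e]
    exact ih.trans (shift hd h M _)

/-- residues which agree modulo `gcd (M, d)` -/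
lemma cong {d : ℤ} (hd : d % 2 = 1) {A : Set ℤ} (h : Inv d A) {M : ℕ} (hM : 1 ≤ M) {a b : ℤ}
    (hab : a ≡ b [ZMOD (Nat.gcd M d.natAbs : ℕ)]) : Sim (cnt A M a) (cnt A M b) := by
  obtain ⟨w, hw⟩ := Int.modEq_iff_dvd.mp hab
  have hbez := Nat.gcd_eq_gcd_ab M d.natAbs
  set X := Nat.gcdA M d.natAbs
  set Y := Nat.gcdB M d.natAbs
  have hM0 : (M : ℤ) ≠ 0 := by positivity
  obtain ⟨t, ht⟩ : ∃ t : ℕ, (t : ℤ) = (Y * w) % M :=
    ⟨((Y * w) % M).toNat, Int.toNat_of_nonneg (Int.emod_nonneg _ hM0)⟩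
  have h1 := shift_many hd h M a t
  have h2 : cnt A M (a + t * d.natAbs) = cnt A M b := by
    apply cnt_congr
    apply Int.modEq_iff_dvd.mpr
    have h3 := Int.mul_ediv_add_emod (Y * w) M
    rw [← ht] at h3
    have h4 : (t : ℤ) = Y * w - M * (Y * w / M) := by linarith
    refine ⟨X * w + (Y * w / M) * d.natAbs, ?_⟩
    rw [h4]
    have h5 : b = a + (Nat.gcd M d.natAbs : ℕ) * w := by linarith
    rw [h5, hbez]
    ring
  rwa [h2] at h1

end Pool.Agent.H284R3.RD
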