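import Mathlib
import Pool.Agent.H284R3.RD.Res

set_option autoImplicit false

namespace Pool.Agent.H284R3.RD

open Pool.Agent.Helper605.CP Pool.Agent.H397R2 Filter Topology

/-- splitting a class modulo `M` into `L` classes modulo `L M` -/
lemma split (A : Set ℤ) {M L : ℕ} (hM : 1 ≤ M) (hL : 1 ≤ L) (b : ℤ) (N : ℕ) :
    cnt A M b N = ∑ t ∈ Finset.range L, cnt A (L * M) (b + t * M) N := by
  classical
  unfold cnt
  have hM0 : (M : ℤ) ≠ 0 := by positivity
  have hL0 : (L : ℤ) ≠ 0 := by positivity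
  have h1 := Finset.card_eq_sum_card_fiberwise (s := (Finset.Icc 1 N).filter
    (fun n : ℕ => (n : ℤ) ∈ A ∧ (n : ℤ) ≡ b [ZMOD M])) (t := Finset.range L)
    (f := fun n : ℕ => ((((n : ℤ) - b) / M) % L).toNat) (fun n _ => by
      have h2 : 0 ≤ (((n : ℤ) - b) / M) % L := Int.emod_nonneg _ hL0
      have h3 : (((n : ℤ) - b) / M) % L < L := Int.emod_lt_of_pos _ (by positivity)
      simp only [Finset.coe_range, Set.mem_Iio]
      omega)
  rw [h1]
  push_cast
  apply Finset.sum_congr rfl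
  intro t ht
  rw [Finset.mem_range] at ht
  congr 2
  rw [Finset.filter_filter]
  apply Finset.filter_congr
  intro n _
  constructor
  · rintro ⟨⟨h2, h3⟩, h4⟩
    refine ⟨h2, ?_⟩
    have h5 : 0 ≤ (((n : ℤ) - b) / M) % L := Int.emod_nonneg _ hL0
    have h6 : (((n : ℤ) - b) / M) % L = t := by omega
    obtain ⟨w, hw⟩ := (Int.modEq_iff_dvd.mp h3.symm)
    rw [hw, Int.mul_ediv_cancel_left _ hM0] at h6
    have h7 := Int.mul_ediv_add_emod w L
    rw [h6] at h7
    apply Int.ModEq.symm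
    apply Int.modEq_iff_dvd.mpr
    refine ⟨w / L, ?_⟩
    push_cast
    have : (n : ℤ) - (b + t * M) = M * w - t * M := by linarith
    rw [this, ← h7]
    have h8 : ((L : ℤ) * (w / L) + t) / L = w / L := by rw [h7]
    rw [h8]
    ring
  · rintro ⟨h2, h3⟩
    obtain ⟨w, hw⟩ := (Int.modEq_iff_dvd.mp h3.symm)
    push_cast at hw
    have h4 : (n : ℤ) - b = M * (L * w + t) := by linarith
    refine ⟨⟨h2, ?_⟩, ?_⟩
    · apply Int.ModEq.symm
      exact Int.modEq_iff_dvd.mpr ⟨L * w + t, h4⟩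
    · rw [h4, Int.mul_ediv_cancel_left _ hM0]
      have h5 : ((L : ℤ) * w + t) % L = t := by
        rw [Int.add_comm, Int.add_mul_emod_self_left]
        exact Int.emod_eq_of_lt (by positivity) (by exact_mod_cast ht)
      rw [h5]
      simp

lemma Sim.sum {ι : Type*} (s : Finset ι) (f : ι → ℕ → ℝ) (g : ℕ → ℝ) (h : ∀ i ∈ s, Sim (f i) g) :
    Sim (fun N => ∑ i ∈ s, f i N) (fun N => s.card * g N) := by
  classical
  induction s using Finset.induction_on with
  | empty =>
    have e : (fun N : ℕ => ∑ i ∈ (∅ : Finset ι), f i N) =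
        (fun N => (((∅ : Finset ι).card : ℕ) : ℝ) * g N) := by
      funext N; simp
    rw [e]; exact Sim.refl _
  | insert i s hi ih =>
    have h1 := (h i (Finset.mem_insert_self i s)).add
      (ih (fun j hj => h j (Finset.mem_insert_of_mem hj)))
    have e1 : (fun N => f i N + ∑ i ∈ s, f i N) = (fun N => ∑ j ∈ insert i s, f j N) := by
      funext N; rw [Finset.sum_insert hi]
    have e2 : (fun N => g N + (s.card : ℝ) * g N) = (fun N => ((insert i s).card : ℝ) * g N) := by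
      funext N; rw [Finset.card_insert_of_notMem hi]; push_cast; ring
    rw [← e1, ← e2]
    exact h1

/-- refinement of the modulus -/
lemma refine_mod {d : ℤ} (hd : d % 2 = 1) {A : Set ℤ} (h : Inv d A) {M L : ℕ} (hM : 1 ≤ M)
    (hL : 1 ≤ L) (hLd : Nat.Coprime L d.natAbs) {b b' : ℤ}
    (hb : b ≡ b' [ZMOD (Nat.gcd M d.natAbs : ℕ)]) :
    Sim (cnt A M b) (fun N => L * cnt A (L * M) b' N) := by
  have e : cnt A M b = fun N => ∑ t ∈ Finset.range L, cnt A (L * M) (b + t * M) N := by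
    funext N; exact split A hM hL b N
  rw [e]
  have hg : Nat.gcd (L * M) d.natAbs = Nat.gcd M d.natAbs := Nat.Coprime.gcd_mul_left_cancel M hLd
  have h1 := Sim.sum (Finset.range L) (fun t => cnt A (L * M) (b + t * M)) (cnt A (L * M) b')
    (fun t _ => cong hd h (Nat.mul_pos hL hM) (by
      rw [hg]
      have h2 : (b + (t : ℤ) * M) ≡ b + 0 [ZMOD (Nat.gcd M d.natAbs : ℕ)] := by
        apply Int.ModEq.add_left
        apply Int.modEq_zero_iff_dvd.mpr
        exact Dvd.dvd.mul_left (by exact_mod_cast Nat.gcd_dvd_left M d.natAbs) _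
      rw [add_zero] at h2
      exact h2.trans hb))
  rw [Finset.card_range] at h1
  exact h1

lemma two {d : ℤ} (hd : d % 2 = 1) {A : Set ℤ} (h : Inv d A) {M : ℕ} (hM : 1 ≤ M) (a : ℤ) :
    Sim (fun N => cnt A M (2 * a) (2 * N)) (fun N => 2 * cnt A M a N) := by
  classical
  have hd2 : Nat.Coprime 2 d.natAbs := by
    rw [Nat.coprime_two_left, Int.natAbs_odd]; exact Int.odd_iff.mpr hd
  have h1 := (refine_mod hd h (L := 2) hM (by norm_num) hd2
    (Int.ModEq.refl (2 * a))).comp 2 (by norm_num)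
  refine h1.trans ?_
  have e : (fun N => ((2 : ℕ) : ℝ) * cnt A (2 * M) (2 * a) (2 * N)) =
      (fun N => 2 * cnt A M a N) := by
    funext N
    push_cast
    congr 1
    unfold cnt
    have h3 : ((Finset.Icc 1 (2 * N)).filter
        (fun n : ℕ => (n : ℤ) ∈ A ∧ (n : ℤ) ≡ 2 * a [ZMOD ((2 * M : ℕ) : ℤ)])) =
        ((Finset.Icc 1 N).filter (fun n : ℕ => (n : ℤ) ∈ A ∧ (n : ℤ) ≡ a [ZMOD M])).image
          (fun n => 2 * n) := by
      ext n
      simp only [Finset.mem_filter, Finset.mem_Icc, Finset.mem_image]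
      constructor
      · rintro ⟨h4, h5, h6⟩
        obtain ⟨w, hw⟩ := Int.modEq_iff_dvd.mp h6
        push_cast at hw
        have h7 : (n : ℤ) = 2 * (a - M * w) := by linarith
        obtain ⟨m, rfl⟩ : ∃ m, n = 2 * m := ⟨n / 2, by omega⟩
        refine ⟨m, ⟨by omega, ?_, ?_⟩, rfl⟩
        · have h8 := h ((2 * m : ℕ) : ℤ)
          have h9 : T d ((2 * m : ℕ) : ℤ) = m := by
            unfold T; rw [if_pos (by omega)]; omega
          rw [h9] at h8
          exact h8.mp h5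
        · apply Int.modEq_iff_dvd.mpr
          refine ⟨w, ?_⟩
          push_cast at h7
          linarith
      · rintro ⟨m, ⟨h4, h5, h6⟩, rfl⟩
        refine ⟨by omega, ?_, ?_⟩
        · have h8 := h ((2 * m : ℕ) : ℤ)
          have h9 : T d ((2 * m : ℕ) : ℤ) = m := by
            unfold T; rw [if_pos (by omega)]; omega
          rw [h9] at h8
          exact h8.mpr h5
        · obtain ⟨w, hw⟩ := Int.modEq_iff_dvd.mp h6
          apply Int.modEq_iff_dvd.mpr
          refine ⟨w, ?_⟩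
          push_cast
          linarith
    rw [h3, Finset.card_image_of_injective _ (fun x y hxy => by simpa using hxy)]
  rw [e]
  exact Sim.refl _

/-- the odd step -/
lemma odd_step {d : ℤ} (hd : d % 2 = 1) {A : Set ℤ} (h : Inv d A) {M : ℕ} (a : ℤ) :
    Sim (fun N => cnt A (2 * M) (2 * a + d) (2 * N)) (fun N => cnt A (3 * M) (3 * a + 2 * d) (3 * N)) := by
  classical
  apply Sim.of_bound (2 * d.natAbs)
  intro N
  have h1 : ((Finset.Icc 1 (2 * N)).filter
      (fun n : ℕ => (n : ℤ) ∈ A ∧ (n : ℤ) ≡ 2 * a + d [ZMOD ((2 * M : ℕ) : ℤ)])).card ≤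
      (Finset.Icc 1 d.natAbs).card + ((Finset.Icc 1 (3 * N)).filter
      (fun n : ℕ => (n : ℤ) ∈ A ∧ (n : ℤ) ≡ 3 * a + 2 * d [ZMOD ((3 * M : ℕ) : ℤ)])).card +
      (Finset.Icc (3 * N + 1) (3 * N + d.natAbs)).card := by
    apply card_le_of_inj (fun n => ((3 * (n : ℤ) + d) / 2).toNat)
    · intro x hx hxU y hy hyU hxy
      simp only [Finset.mem_filter, Finset.mem_Icc] at hx hxU hy hyU hxy
      obtain ⟨w, hw⟩ := Int.modEq_iff_dvd.mp hx.2.2
      obtain ⟨w', hw'⟩ := Int.modEq_iff_dvd.mp hy.2.2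
      push_cast at hw hw'
      have e1 : (x : ℤ) = 2 * (a - M * w) + d := by linarith
      have e2 : (y : ℤ) = 2 * (a - M * w') + d := by linarith
      generalize (M : ℤ) * w = v at *
      generalize (M : ℤ) * w' = v' at *
      omega
    · intro x hx hxU
      simp only [Finset.mem_filter, Finset.mem_Icc] at hx hxU ⊢
      obtain ⟨w, hw⟩ := Int.modEq_iff_dvd.mp hx.2.2
      push_cast at hw
      have e1 : (x : ℤ) = 2 * (a - M * w) + d := by linarith
      have e3 : (3 * (x : ℤ) + d) / 2 = 3 * (a - M * w) + 2 * d := by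
        generalize (M : ℤ) * w = v at *
        omega
      have e4 : ((((3 * (x : ℤ) + d) / 2).toNat : ℕ) : ℤ) = (3 * (x : ℤ) + d) / 2 :=
        Int.toNat_of_nonneg (by omega)
      have e5 : T d x = (3 * (x : ℤ) + d) / 2 := by
        unfold T; rw [if_neg (by omega)]
      have e6 : ((3 * (x : ℤ) + d) / 2) ∈ A := by
        rw [← e5]; exact (h x).mp hx.2.1
      have e7 : ((3 * (x : ℤ) + d) / 2) ≡ 3 * a + 2 * d [ZMOD ((3 * M : ℕ) : ℤ)] := by
        rw [e3]
        apply Int.modEq_iff_dvd.mpr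
        refine ⟨w, ?_⟩
        push_cast; ring
      by_cases h8 : ((3 * (x : ℤ) + d) / 2).toNat ≤ 3 * N
      · left
        rw [e4]
        exact ⟨⟨by omega, h8⟩, e6, e7⟩
      · right
        omega
  have h2 : ((Finset.Icc 1 (3 * N)).filter
      (fun n : ℕ => (n : ℤ) ∈ A ∧ (n : ℤ) ≡ 3 * a + 2 * d [ZMOD ((3 * M : ℕ) : ℤ)])).card ≤
      (Finset.Icc 1 d.natAbs).card + ((Finset.Icc 1 (2 * N)).filter
      (fun n : ℕ => (n : ℤ) ∈ A ∧ (n : ℤ) ≡ 2 * a + d [ZMOD ((2 * M : ℕ) : ℤ)])).card +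
      (Finset.Icc (2 * N + 1) (2 * N + d.natAbs)).card := by
    apply card_le_of_inj (fun n => ((2 * (n : ℤ) - d) / 3).toNat)
    · intro x hx hxU y hy hyU hxy
      simp only [Finset.mem_filter, Finset.mem_Icc] at hx hxU hy hyU hxy
      obtain ⟨w, hw⟩ := Int.modEq_iff_dvd.mp hx.2.2
      obtain ⟨w', hw'⟩ := Int.modEq_iff_dvd.mp hy.2.2
      push_cast at hw hw'
      have e1 : (x : ℤ) = 3 * (a - M * w) + 2 * d := by linarith
      have e2 : (y : ℤ) = 3 * (a - M * w') + 2 * d := by linarith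
      generalize (M : ℤ) * w = v at *
      generalize (M : ℤ) * w' = v' at *
      omega
    · intro x hx hxU
      simp only [Finset.mem_filter, Finset.mem_Icc] at hx hxU ⊢
      obtain ⟨w, hw⟩ := Int.modEq_iff_dvd.mp hx.2.2
      push_cast at hw
      have e1 : (x : ℤ) = 3 * (a - M * w) + 2 * d := by linarith
      have e3 : (2 * (x : ℤ) - d) / 3 = 2 * (a - M * w) + d := by
        generalize (M : ℤ) * w = v at *
        omega
      have e4 : ((((2 * (x : ℤ) - d) / 3).toNat : ℕ) : ℤ) = (2 * (x : ℤ) - d) / 3 :=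
        Int.toNat_of_nonneg (by omega)
      have e5 : T d ((2 * (x : ℤ) - d) / 3) = x := by
        rw [e3]
        unfold T
        generalize (M : ℤ) * w = v at *
        rw [if_neg (by omega)]
        omega
      have e6 : ((2 * (x : ℤ) - d) / 3) ∈ A := by
        rw [h, e5]; exact hx.2.1
      have e7 : ((2 * (x : ℤ) - d) / 3) ≡ 2 * a + d [ZMOD ((2 * M : ℕ) : ℤ)] := by
        rw [e3]
        apply Int.modEq_iff_dvd.mpr
        refine ⟨w, ?_⟩
        push_cast; ring
      have e8 : 1 ≤ (2 * (x : ℤ) - d) / 3 := by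
        generalize (M : ℤ) * w = v at *
        omega
      by_cases h8 : ((2 * (x : ℤ) - d) / 3).toNat ≤ 2 * N
      · left
        rw [e4]
        exact ⟨⟨by omega, h8⟩, e6, e7⟩
      · right
        omega
  rw [Nat.card_Icc, Nat.card_Icc] at h1 h2
  have e1 : cnt A (2 * M) (2 * a + d) (2 * N) ≤
      cnt A (3 * M) (3 * a + 2 * d) (3 * N) + 2 * (d.natAbs : ℝ) := by
    unfold cnt
    have h1' : ((Finset.Icc 1 (2 * N)).filter
      (fun n : ℕ => (n : ℤ) ∈ A ∧ (n : ℤ) ≡ 2 * a + d [ZMOD ((2 * M : ℕ) : ℤ)])).card ≤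
      ((Finset.Icc 1 (3 * N)).filter
      (fun n : ℕ => (n : ℤ) ∈ A ∧ (n : ℤ) ≡ 3 * a + 2 * d [ZMOD ((3 * M : ℕ) : ℤ)])).card +
      2 * d.natAbs := by omega
    exact_mod_cast h1'
  have e2 : cnt A (3 * M) (3 * a + 2 * d) (3 * N) ≤
      cnt A (2 * M) (2 * a + d) (2 * N) + 2 * (d.natAbs : ℝ) := by
    unfold cnt
    have h2' : ((Finset.Icc 1 (3 * N)).filter
      (fun n : ℕ => (n : ℤ) ∈ A ∧ (n : ℤ) ≡ 3 * a + 2 * d [ZMOD ((3 * M : ℕ) : ℤ)])).card ≤
      ((Finset.Icc 1 (2 * N)).filter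
      (fun n : ℕ => (n : ℤ) ∈ A ∧ (n : ℤ) ≡ 2 * a + d [ZMOD ((2 * M : ℕ) : ℤ)])).card +
      2 * d.natAbs := by omega
    exact_mod_cast h2'
  rw [abs_le]
  constructor <;> linarith

end Pool.Agent.H284R3.RD
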