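import Mathlib
import Pool.Agent.H284R3.RD.Res2
import Pool.Agent.H284R3.RD.Final

set_option autoImplicit false

namespace Pool.Agent.H284R3.RD

open Pool.Agent.Helper605.CP Pool.Agent.H397R2 Filter Topology

lemma three {d : ℤ} (hd : d % 2 = 1) (h3 : ¬ (3 : ℤ) ∣ d) {A : Set ℤ} (h : Inv d A) {M : ℕ}
    (hM : 1 ≤ M) (a : ℤ) :
    Sim (fun N => cnt A M (3 * a) (3 * N)) (fun N => 3 * cnt A M a N) := by
  have hd2 : Nat.Coprime 2 d.natAbs := by
    rw [Nat.coprime_two_left, Int.natAbs_odd]; exact Int.odd_iff.mpr hd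
  have hd3 : Nat.Coprime 3 d.natAbs := by
    rw [Nat.Prime.coprime_iff_not_dvd Nat.prime_three]
    intro h
    exact h3 (Int.natCast_dvd.mpr h)
  have hgd : ((Nat.gcd M d.natAbs : ℕ) : ℤ) ∣ d :=
    Int.natCast_dvd.mpr (Nat.gcd_dvd_right M d.natAbs)
  have h1 := two hd h hM a
  have h2 := (refine_mod hd h (L := 2) (b := 2 * a) (b' := 2 * a + d) hM (by norm_num) hd2 (by
    apply Int.modEq_iff_dvd.mpr
    rw [add_sub_cancel_left]; exact hgd)).comp 2 (by norm_num)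
  have h4 := odd_step hd h (M := M) a
  have h5 := (refine_mod hd h (L := 3) (b := 3 * a) (b' := 3 * a + 2 * d) hM (by norm_num) hd3 (by
    apply Int.modEq_iff_dvd.mpr
    rw [add_sub_cancel_left]; exact Dvd.dvd.mul_left hgd 2)).comp 3 (by norm_num)
  -- combine
  have h6 : Sim (fun N => cnt A M (3 * a) (3 * N))
      (fun N => 3 * cnt A (2 * M) (2 * a + d) (2 * N)) := by
    refine h5.trans ?_
    have := (h4.symm.mul 3)
    push_cast
    exact this
  have h7 : Sim (fun N => 3 * cnt A (2 * M) (2 * a + d) (2 * N)) (fun N => 3 * cnt A M a N) := by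
    have h8 := (h2.symm.trans h1).mul (3 / 2)
    have e1 : (fun N => (3 / 2 : ℝ) * (((2 : ℕ) : ℝ) * cnt A (2 * M) (2 * a + d) (2 * N))) =
        (fun N => 3 * cnt A (2 * M) (2 * a + d) (2 * N)) := by
      funext N; push_cast; ring
    have e2 : (fun N => (3 / 2 : ℝ) * (2 * cnt A M a N)) = (fun N => 3 * cnt A M a N) := by
      funext N; ring
    rw [e1, e2] at h8
    exact h8
  exact h6.trans h7

lemma pow_two {d : ℤ} (hd : d % 2 = 1) {A : Set ℤ} (h : Inv d A) {M : ℕ} (hM : 1 ≤ M) (a : ℤ)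
    (i : ℕ) : Sim (fun N => cnt A M (2 ^ i * a) (2 ^ i * N)) (fun N => 2 ^ i * cnt A M a N) := by
  induction i with
  | zero => simp only [pow_zero, one_mul]; exact Sim.refl _
  | succ i ih =>
    have h1 := (two hd h hM (2 ^ i * a)).comp (2 ^ i) (Nat.one_le_two_pow)
    have h2 := ih.mul 2
    have e1 : (fun N => cnt A M (2 * (2 ^ i * a)) (2 * (2 ^ i * N))) =
        (fun N => cnt A M (2 ^ (i + 1) * a) (2 ^ (i + 1) * N)) := by
      funext N
      congr 1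
      · ring
      · ring
    have e2 : (fun N => (2 : ℝ) * (2 ^ i * cnt A M a N)) =
        (fun N => 2 ^ (i + 1) * cnt A M a N) := by
      funext N; ring
    rw [← e1, ← e2]
    exact h1.trans h2

lemma pow_three {d : ℤ} (hd : d % 2 = 1) (h3 : ¬ (3 : ℤ) ∣ d) {A : Set ℤ} (h : Inv d A) {M : ℕ}
    (hM : 1 ≤ M) (a : ℤ)
    (i : ℕ) : Sim (fun N => cnt A M (3 ^ i * a) (3 ^ i * N)) (fun N => 3 ^ i * cnt A M a N) := by
  induction i with
  | zero => simp only [pow_zero, one_mul]; exact Sim.refl _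
  | succ i ih =>
    have h1 := (three hd h3 h hM (3 ^ i * a)).comp (3 ^ i) (Nat.one_le_pow _ _ (by norm_num))
    have h2 := ih.mul 3
    have e1 : (fun N => cnt A M (3 * (3 ^ i * a)) (3 * (3 ^ i * N))) =
        (fun N => cnt A M (3 ^ (i + 1) * a) (3 ^ (i + 1) * N)) := by
      funext N
      congr 1
      · ring
      · ring
    have e2 : (fun N => (3 : ℝ) * (3 ^ i * cnt A M a N)) =
        (fun N => 3 ^ (i + 1) * cnt A M a N) := by
      funext N; ring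
    rw [← e1, ← e2]
    exact h1.trans h2

/-- multiplication of the residue by `2^i 3^j` -/
theorem mult_class {d : ℤ} (hd : d % 2 = 1) (h3 : ¬ (3 : ℤ) ∣ d) {A : Set ℤ} (h : Inv d A) {M : ℕ}
    (hM : 1 ≤ M) (b : ℤ) (i j : ℕ) : Sim (cnt A M b) (cnt A M (2 ^ i * 3 ^ j * b)) := by
  obtain ⟨φ, hφ, hp2, hp3⟩ := exists_phi hd h3
  intro ε hε
  obtain ⟨m, hm⟩ := exists_nat_gt (6 / ε)
  have hm1 : 1 ≤ m := by
    rcases Nat.eq_zero_or_pos m with h0 | h0
    · rw [h0] at hm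
      have : (0 : ℝ) < 6 / ε := by positivity
      push_cast at hm
      linarith
    · exact h0
  obtain ⟨s, t, _, hlo, hhi⟩ := pow_between φ i ((φ - 1) * j) 0 hφ m m hm1
  set ep := i + φ * s with hep
  set eq := (φ - 1) * j + φ * t with heq
  set P : ℕ := 2 ^ ep with hP
  set Q : ℕ := 3 ^ eq with hQ
  have hP1 : 1 ≤ P := Nat.one_le_two_pow
  have hQ1 : 1 ≤ Q := Nat.one_le_pow _ _ (by norm_num)
  have hPQ : Q ≤ P := by
    by_contra hcon
    push Not at hcon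
    have : 4 * (P * m) ≤ 4 * (Q * m) := by
      have := Nat.mul_le_mul_right m hcon.le
      omega
    have h5 : (4 * m + 1) * Q = 4 * (Q * m) + Q := by ring
    omega
  have hPQ2 : 4 * ((P : ℝ) - Q) * m ≤ 3 * Q := by
    have h5 : ((4 * (P * m) : ℕ) : ℝ) ≤ (((4 * m + 3) * Q : ℕ) : ℝ) := by exact_mod_cast hhi.le
    push_cast at h5
    nlinarith
  -- the congruence
  have hgd : ((Nat.gcd M d.natAbs : ℕ) : ℤ) ∣ d :=
    Int.natCast_dvd.mpr (Nat.gcd_dvd_right M d.natAbs)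
  have hcong : (2 : ℤ) ^ ep * b ≡ 3 ^ eq * (2 ^ i * 3 ^ j * b) [ZMOD d] := by
    have c1 : (2 : ℤ) ^ ep ≡ 2 ^ i [ZMOD d] := by
      rw [hep, pow_add, pow_mul]
      have := (hp2.pow s).mul_left (2 ^ i)
      simpa using this
    have c2 : (3 : ℤ) ^ eq * 3 ^ j ≡ 1 [ZMOD d] := by
      have e : (3 : ℤ) ^ eq * 3 ^ j = (3 ^ φ) ^ (t + j) := by
        rw [← pow_mul, ← pow_add, heq]
        congr 1
        obtain ⟨ψ, rfl⟩ : ∃ ψ, φ = ψ + 1 := ⟨φ - 1, by omega⟩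
        simp; ring
      rw [e]
      have := hp3.pow (t + j)
      simpa using this
    have c3 : (3 : ℤ) ^ eq * (2 ^ i * 3 ^ j * b) ≡ 2 ^ i * b [ZMOD d] := by
      have := (c2.mul_right (2 ^ i * b))
      have e : (3 : ℤ) ^ eq * 3 ^ j * (2 ^ i * b) = 3 ^ eq * (2 ^ i * 3 ^ j * b) := by ring
      rw [e, one_mul] at this
      exact this
    exact (c1.mul_right b).trans c3.symm
  have hcong2 : (2 : ℤ) ^ ep * b ≡ 3 ^ eq * (2 ^ i * 3 ^ j * b)
      [ZMOD ((Nat.gcd M d.natAbs : ℕ) : ℤ)] := hcong.of_dvd hgd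
  have x1 := pow_two hd h hM b ep
  have x2 := pow_three hd h3 h hM (2 ^ i * 3 ^ j * b) eq
  have x3 := (cong hd h hM hcong2).comp Q hQ1
  have x4 : Sim (fun N => cnt A M (2 ^ ep * b) (Q * N))
      (fun N => 3 ^ eq * cnt A M (2 ^ i * 3 ^ j * b) N) := by
    have e : (fun N => cnt A M (3 ^ eq * (2 ^ i * 3 ^ j * b)) (Q * N)) =
        (fun N => cnt A M (3 ^ eq * (2 ^ i * 3 ^ j * b)) (3 ^ eq * N)) := rfl
    rw [e] at x3
    exact x3.trans x2
  obtain ⟨N1, y1⟩ := x1 (ε / 4) (by positivity)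
  obtain ⟨N2, y2⟩ := x4 (ε / 4) (by positivity)
  refine ⟨max N1 N2, fun N hN => ?_⟩
  have z1 := y1 N (le_trans (le_max_left _ _) hN)
  have z2 := y2 N (le_trans (le_max_right _ _) hN)
  have z3 := cnt_mono A M (2 ^ ep * b) (N := Q * N) (N' := P * N) (Nat.mul_le_mul_right N hPQ)
  have hN0 : (0 : ℝ) ≤ N := Nat.cast_nonneg N
  have hc1 := cnt_nonneg A M b N
  have hc2 := cnt_le A M b N
  set u := cnt A M b N with hu
  set v := cnt A M (2 ^ i * 3 ^ j * b) N with hv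
  have hPr : ((2 : ℝ) ^ ep) = P := by rw [hP]; push_cast; rfl
  have hQr : ((3 : ℝ) ^ eq) = Q := by rw [hQ]; push_cast; rfl
  have z1' : |cnt A M (2 ^ ep * b) (P * N) - P * u| ≤ ε / 4 * N := by
    rw [← hPr]; exact z1
  have z2' : |cnt A M (2 ^ ep * b) (Q * N) - Q * v| ≤ ε / 4 * N := by
    rw [← hQr]; exact z2
  rw [abs_le] at z1' z2'
  obtain ⟨z3a, z3b⟩ := z3
  push_cast at z3b
  have hQpos : (1 : ℝ) ≤ Q := by exact_mod_cast hQ1
  have hPQr : (Q : ℝ) ≤ P := by exact_mod_cast hPQ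
  -- `P - Q ≤ (ε / 8) Q`
  have hdiff : (P : ℝ) - Q ≤ ε / 8 * Q := by
    have h5 : 6 < ε * m := by
      rw [div_lt_iff₀ hε] at hm; linarith
    have h6 : (0 : ℝ) ≤ P - Q := by linarith
    nlinarith
  have hPN : ((P : ℝ) - Q) * N ≤ ε / 8 * Q * N := mul_le_mul_of_nonneg_right hdiff hN0
  have hPu : ((P : ℝ) - Q) * u ≤ ε / 8 * Q * N := by
    have h6 : (0 : ℝ) ≤ P - Q := by linarith
    calc ((P : ℝ) - Q) * u ≤ (P - Q) * N := mul_le_mul_of_nonneg_left hc2 h6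
      _ ≤ _ := hPN
  have hPu0 : 0 ≤ ((P : ℝ) - Q) * u := mul_nonneg (by linarith) hc1
  have hεN : ε / 4 * N ≤ ε / 4 * Q * N := by
    have : 0 ≤ ε / 4 * N := by positivity
    nlinarith
  have hfin1 : (Q : ℝ) * (u - v) ≤ Q * (ε * N) := by nlinarith
  have hfin2 : (Q : ℝ) * (v - u) ≤ Q * (ε * N) := by nlinarith
  have hQ0 : (0 : ℝ) < Q := by linarith
  have f1 := le_of_mul_le_mul_left hfin1 hQ0
  have f2 := le_of_mul_le_mul_left hfin2 hQ0
  rw [abs_le]
  constructor <;> linarith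

/-- **Main theorem on residue classes** (positive side). -/
theorem class_main {d : ℤ} (hd : d % 2 = 1) (h3 : ¬ (3 : ℤ) ∣ d) {A : Set ℤ} (h : Inv d A) {M : ℕ}
    (hM : 1 ≤ M) {a b : ℤ} {i j : ℕ}
    (hab : a ≡ 2 ^ i * 3 ^ j * b [ZMOD ((Nat.gcd M d.natAbs : ℕ) : ℤ)]) :
    Sim (cnt A M a) (cnt A M b) :=
  (cong hd h hM hab).trans (mult_class hd h3 h hM b i j).symm

end Pool.Agent.H284R3.RD
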