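import Mathlib
import Pool.Agent.H284R3.RD.Res3

set_option autoImplicit false

namespace Pool.Agent.H284R3.RD

open Filter Topology

lemma Sim.tendsto {f g : ℕ → ℝ} (h : Sim f g) {l : ℝ}
    (hf : Tendsto (fun N : ℕ => f N / N) atTop (𝓝 l)) :
    Tendsto (fun N : ℕ => g N / N) atTop (𝓝 l) := by
  rw [Metric.tendsto_atTop] at hf ⊢
  intro ε hε
  obtain ⟨N1, h1⟩ := hf (ε / 2) (by positivity)
  obtain ⟨N2, h2⟩ := h (ε / 4) (by positivity)
  refine ⟨max (max N1 N2) 1, fun N hN => ?_⟩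
  have hN1 : N1 ≤ N := le_trans (le_trans (le_max_left _ _) (le_max_left _ _)) hN
  have hN2 : N2 ≤ N := le_trans (le_trans (le_max_right _ _) (le_max_left _ _)) hN
  have hN3 : 1 ≤ N := le_trans (le_max_right _ _) hN
  have e1 := h1 N hN1
  have e2 := h2 N hN2
  have hNpos : (0 : ℝ) < N := by exact_mod_cast hN3
  rw [Real.dist_eq] at e1 ⊢
  have e3 : |g N / N - f N / N| ≤ ε / 4 := by
    rw [← sub_div, abs_div, abs_of_pos hNpos, div_le_iff₀ hNpos, abs_sub_comm]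
    exact e2
  have e4 := abs_sub_le (g N / N) (f N / N) l
  linarith

lemma rel_two_side {g : ℤ} {s x t : ℤ} (h : x ≡ t [ZMOD g]) {a : ℤ} (hr : Rel g (s * t) a) :
    Rel g (s * x) a := by
  obtain ⟨i, j, hij⟩ := hr
  exact ⟨i, j, (h.mul_left s).trans hij⟩

lemma cnt_zero {B : Set ℤ} {M : ℕ} {t : ℤ} (h : ∀ n : ℤ, n ∈ B → n ≡ t [ZMOD M] → False) (N : ℕ) :
    cnt B M t N = 0 := by
  classical
  unfold cnt
  rw [Nat.cast_eq_zero]
  apply Finset.card_eq_zero.mpr
  apply Finset.eq_empty_of_forall_notMem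
  intro n hn
  have hn' := (Finset.mem_filter.mp hn).2
  exact h n hn'.1 hn'.2

lemma cnt_set {A B : Set ℤ} {M : ℕ} {t : ℤ} (h : ∀ n : ℤ, n ≡ t [ZMOD M] → (n ∈ B ↔ n ∈ A)) (N : ℕ) :
    cnt B M t N = cnt A M t N := by
  classical
  unfold cnt
  congr 2
  ext n
  simp only [Finset.mem_filter]
  constructor
  · rintro ⟨h1, h2, h4⟩; exact ⟨h1, (h _ h4).mp h2, h4⟩
  · rintro ⟨h1, h2, h4⟩; exact ⟨h1, (h _ h4).mpr h2, h4⟩

/-- existence of the density in a residue class, from the density of the union of classes -/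
theorem class_density {d : ℤ} (hd : d % 2 = 1) (h3 : ¬ (3 : ℤ) ∣ d) {A : Set ℤ} (h : Inv d A)
    {M : ℕ} (hM : 1 ≤ M) {s : ℤ} (hs : s = 1 ∨ s = -1) (a : ℤ) {l : ℝ}
    (hl : Tendsto (fun N : ℕ => cnt {x | x ∈ A ∧ Rel ((Nat.gcd M d.natAbs : ℕ) : ℤ) (s * x) a} 1 0 N / N)
      atTop (𝓝 l)) :
    ∃ n : ℕ, 1 ≤ n ∧ Tendsto (fun N : ℕ => cnt A M (s * a) N / N) atTop (𝓝 (l / n)) := by
  classical
  set g : ℤ := ((Nat.gcd M d.natAbs : ℕ) : ℤ) with hg
  have hgM : g ∣ (M : ℤ) := by rw [hg]; exact_mod_cast Nat.gcd_dvd_left M d.natAbs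
  have hss : s * s = 1 := by rcases hs with rfl | rfl <;> norm_num
  have hM0 : (M : ℤ) ≠ 0 := by positivity
  set F : Finset ℕ := (Finset.range M).filter (fun t : ℕ => Rel g (s * (t : ℤ)) a) with hF
  have hFpos : 1 ≤ F.card := by
    rw [Nat.one_le_iff_ne_zero, Finset.card_ne_zero]
    obtain ⟨t, ht⟩ : ∃ t : ℕ, (t : ℤ) = (s * a) % M :=
      ⟨((s * a) % M).toNat, Int.toNat_of_nonneg (Int.emod_nonneg _ hM0)⟩
    refine ⟨t, ?_⟩
    rw [hF, Finset.mem_filter, Finset.mem_range]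
    have h1 : (s * a) % M < M := Int.emod_lt_of_pos _ (by positivity)
    refine ⟨by omega, ?_⟩
    rw [ht]
    have h2 : (s * a) % M ≡ s * a [ZMOD g] := (Int.mod_modEq (s * a) M).of_dvd hgM
    have h3 : Rel g (s * (s * a)) a := by
      rw [← mul_assoc, hss, one_mul]; exact Rel.rfl' _ _
    exact rel_two_side h2 h3
  refine ⟨F.card, hFpos, ?_⟩
  set S : Set ℤ := {x | x ∈ A ∧ Rel g (s * x) a} with hS
  have e1 : (cnt S 1 0) = fun N => ∑ t ∈ F, cnt A M t N := by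
    funext N
    have h1 := split S (M := 1) (L := M) le_rfl hM 0 N
    rw [h1, hF, Finset.sum_filter]
    apply Finset.sum_congr rfl
    intro t _
    have e2 : cnt S (M * 1) (0 + (t : ℤ) * ((1 : ℕ) : ℤ)) N = cnt S M t N := by
      rw [mul_one]; congr 1; push_cast; ring
    rw [e2]
    split_ifs with hr
    · refine cnt_set (fun n hn => ?_) N
      constructor
      · intro h1
        exact h1.1
      · intro h1
        exact And.intro h1 (rel_two_side (hn.of_dvd hgM) hr)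
    · exact cnt_zero (fun n h1 hn => hr (rel_two_side (hn.symm.of_dvd hgM) h1.2)) N
  have e2 : Sim (cnt S 1 0) (fun N => F.card * cnt A M (s * a) N) := by
    rw [e1]
    apply Sim.sum F (fun (t : ℕ) => cnt A M (t : ℤ)) (cnt A M (s * a))
    intro t ht
    rw [hF, Finset.mem_filter] at ht
    obtain ⟨i, j, hij⟩ := ht.2
    apply class_main hd h3 h hM (i := i) (j := j)
    have h5 := hij.mul_left s
    rw [← mul_assoc, hss, one_mul] at h5
    refine h5.trans ?_
    have : s * (2 ^ i * 3 ^ j * a) = 2 ^ i * 3 ^ j * (s * a) := by ring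
    rw [this]
  have e3 := e2.tendsto hl
  have e4 := e3.div_const (F.card : ℝ)
  have hne : (F.card : ℝ) ≠ 0 := by positivity
  refine e4.congr (fun N => ?_)
  field_simp

end Pool.Agent.H284R3.RD
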