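import Mathlib
import Pool.Agent.H284R3.RD.Final

set_option autoImplicit false

namespace Pool.Agent.H284R3.RD

open Pool.Agent.Helper605.CP Pool.Agent.H397R2 Filter Topology

section

variable {R M : Type*} [Ring R] [IsNoetherianRing R] [AddCommGroup M] [Module R M]

/-- The positive side for `d > 0`, with invariance on the positive integers only. -/
theorem pos_only {d : ℤ} (hd : d % 2 = 1) (h3 : ¬ (3 : ℤ) ∣ d) (hpos : 0 < d) {c : ℤ → M}
    (h : ∀ x, 0 < x → c (T d x) = c x) {k : ℕ} (hk : 2 ≤ k)
    (hfin : (Submodule.span R (kernel k (fun n : ℕ => c n))).FG)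
    {x y : ℤ} (hx : 0 < x) (hy : 0 < y) (hrel : Rel d x y) : c x = c y := by
  classical
  have hTpos : ∀ x, 0 < x → 0 < T d x := by
    intro x hx
    unfold T
    split_ifs <;> omega
  set c' : ℤ → M := fun x => if hx : ∃ j, 0 < (T d)^[j] x then c ((T d)^[Nat.find hx] x)
    else c 0 with hc'
  have hc1 : ∀ x, 0 < x → c' x = c x := by
    intro x hx
    have hex : ∃ j, 0 < (T d)^[j] x := ⟨0, hx⟩
    have : Nat.find hex = 0 := by
      rw [Nat.find_eq_zero]; exact hx
    simp only [hc']
    rw [dif_pos hex, this]
    rfl
  have hc0 : c' 0 = c 0 := by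
    have hno : ¬ ∃ j, 0 < (T d)^[j] (0 : ℤ) := by
      rintro ⟨j, hj⟩
      have h0 : T d 0 = 0 := by unfold T; norm_num
      have : (T d)^[j] (0 : ℤ) = 0 := by
        induction j with
        | zero => rfl
        | succ j _ =>
          rw [Function.iterate_succ_apply, h0]
          clear hj
          rename_i ih
          clear ih
          induction j with
          | zero => rfl
          | succ j ih => rw [Function.iterate_succ_apply, h0, ih]
      omega
    simp only [hc']
    rw [dif_neg hno]
  have hinv : ∀ x, c' (T d x) = c' x := by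
    intro x
    by_cases hx : 0 < x
    · rw [hc1 x hx, hc1 _ (hTpos x hx), h x hx]
    · by_cases hex : ∃ j, 0 < (T d)^[j] x
      · have hex' : ∃ j, 0 < (T d)^[j] (T d x) := by
          obtain ⟨j, hj⟩ := hex
          rcases j with _ | j
          · exact absurd hj hx
          · exact ⟨j, hj⟩
        have hf : Nat.find hex = Nat.find hex' + 1 := by
          rw [Nat.find_eq_iff]
          refine ⟨?_, ?_⟩
          · rw [Function.iterate_succ_apply]
            exact Nat.find_spec hex'
          · intro n hn
            rcases n with _ | n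
            · exact hx
            · rw [Function.iterate_succ_apply]
              exact Nat.find_min hex' (by omega)
        simp only [hc']
        rw [dif_pos hex, dif_pos hex', hf, Function.iterate_succ_apply]
      · have hex' : ¬ ∃ j, 0 < (T d)^[j] (T d x) := by
          rintro ⟨j, hj⟩
          exact hex ⟨j + 1, by rwa [Function.iterate_succ_apply]⟩
        simp only [hc']
        rw [dif_neg hex, dif_neg hex']
  have hfun : (fun n : ℕ => c' n) = (fun n : ℕ => c n) := by
    funext n
    rcases Nat.eq_zero_or_pos n with rfl | hn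
    · simpa using hc0
    · exact hc1 _ (by exact_mod_cast hn)
  rw [← hc1 x hx, ← hc1 y hy]
  exact pos_all hd h3 hpos hinv hk (by rw [hfun]; exact hfin) hx hy hrel

end

/-- indicator function of a set of natural numbers -/
noncomputable def ind (A : ℕ → Prop) : ℕ → ZMod 2 := by
  classical exact fun n => if A n then 1 else 0

lemma ind_eq {A : ℕ → Prop} {m n : ℕ} (h : ind A m = ind A n) : A m ↔ A n := by
  classical
  unfold ind at h
  by_cases h1 : A m <;> by_cases h2 : A n <;> simp_all

lemma fg_of_finite {k : ℕ} {A : ℕ → Prop} (h : (kernel k A).Finite) :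
    (Submodule.span (ZMod 2) (kernel k (ind A))).FG := by
  classical
  apply Submodule.fg_span
  refine (h.image (fun f => ind f)).subset ?_
  rintro f ⟨l, r, hr, rfl⟩
  refine ⟨fun n => A (k ^ l * n + r), ⟨l, r, hr, rfl⟩, ?_⟩
  funext n
  rfl

/-- A set whose positive part is periodic has finite kernels. -/
lemma finite_of_periodic {D : ℕ} (hD : 1 ≤ D) {A : ℕ → Prop}
    (h : ∀ n, 1 ≤ n → (A (n + D) ↔ A n)) {k : ℕ} (hk : 2 ≤ k) : (kernel k A).Finite := by
  classical
  have hfin : {f : ℕ → Prop | ∀ n, 1 ≤ n → f (n + D) = f n}.Finite := by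
    apply Set.Finite.of_injOn (f := fun f : ℕ → Prop => fun i : Fin (D + 1) => f i)
      (t := Set.univ) (fun _ _ => Set.mem_univ _) _ (Set.toFinite _)
    intro f hf g hg hfg
    have h1 : ∀ n, f n = g n := by
      intro n
      induction n using Nat.strong_induction_on with
      | _ n ih =>
        by_cases hn : n < D + 1
        · exact congrFun hfg ⟨n, hn⟩
        · obtain ⟨m, rfl⟩ : ∃ m, n = m + D := ⟨n - D, by omega⟩
          have h2 : f (m + D) = f m := hf m (by omega)
          have h3 : g (m + D) = g m := hg m (by omega)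
          rw [h2, h3, ih m (by omega)]
    exact funext h1
  refine hfin.subset ?_
  rintro f ⟨l, r, hr, rfl⟩ n hn
  have hmul : ∀ t m, 1 ≤ m → (A (m + t * D) ↔ A m) := by
    intro t m hm
    induction t with
    | zero => simp
    | succ t ih =>
      rw [← ih, show m + (t + 1) * D = (m + t * D) + D by ring]
      exact h _ (by omega)
  have hkl : 1 ≤ k ^ l := Nat.one_le_pow _ _ (by omega)
  have e : k ^ l * (n + D) + r = (k ^ l * n + r) + k ^ l * D := by ring
  show A (k ^ l * (n + D) + r) = A (k ^ l * n + r)
  rw [e]
  exact propext (hmul _ _ (by nlinarith))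

end Pool.Agent.H284R3.RD
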